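import Pool.Agent.L7h61.FJ.Grd

/-!
# Two by two matrices over algebras with one place at infinity on each component
-/

set_option autoImplicit false

namespace Pool.Agent.L7h61.FJ

open Pool.Agent.Y110.FJ

variable {C : ∀ (G : Type) [Group G], Prop}

/-- a decreasing sequence of subspaces with intersection zero meets a space of finite dimension
eventually in zero -/
theorem eventually_bot {k M : Type} [Field k] [AddCommGroup M] [Module k M] (W : Submodule k M)
    [FiniteDimensional k W] (N : ℕ → Submodule k M) (hN : Antitone N) (h : ⨅ j, N j = ⊥) :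
    ∃ j, ∀ x ∈ W, x ∈ N j → x = 0 := by
  let f : ℕ →o (Submodule k W)ᵒᵈ :=
    ⟨fun j => OrderDual.toDual ((N j).comap W.subtype), fun i j hij =>
      OrderDual.toDual_le_toDual.2 (Submodule.comap_mono (hN hij))⟩
  obtain ⟨j, hj⟩ := IsArtinian.monotone_stabilizes f
  refine ⟨j, fun x hx hxj => ?_⟩
  have h1 : ∀ i, x ∈ N i := by
    intro i
    rcases le_total i j with hij | hij
    · exact hN hij hxj
    · have h2 : (N j).comap W.subtype = (N i).comap W.subtype :=
        OrderDual.toDual.injective (hj i hij)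
      have h3 : (⟨x, hx⟩ : W) ∈ (N j).comap W.subtype := hxj
      rw [h2] at h3
      exact h3
  have h4 : x ∈ ⨅ j, N j := (Submodule.mem_iInf _).2 h1
  rw [h] at h4
  exact (Submodule.mem_bot k).1 h4

/-- the filtration condition -/
theorem aff_fil {k A D : Type} [Field k] [CommRing A] [Algebra k A] [IsNoetherianRing A]
    (I p : Ideal A) [hp : p.IsPrime] (hIp : I ⊔ p ≠ ⊤) [DivisionRing D] (V : DV D) (ι : A →+* D)
    (hι : RingHom.ker ι = p)
    (hW : ∀ m : ℤ, ∃ W : Submodule k A, FiniteDimensional k W ∧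
      ∀ x, V.O m (ι x) → ∃ w ∈ W, x - w ∈ p) (m : ℤ) :
    ∃ j : ℕ, ∀ x ∈ I ^ j, V.O m (ι x) → ι x = 0 := by
  obtain ⟨W, hWf, hW'⟩ := hW m
  let q : A →ₐ[k] A ⧸ p := Ideal.Quotient.mkₐ k p
  have hWf' : FiniteDimensional k (W.map q.toLinearMap) := inferInstance
  have hI' : I.map (Ideal.Quotient.mk p) ≠ ⊤ := by
    intro h0
    apply hIp
    have h1 : (I.map (Ideal.Quotient.mk p)).comap (Ideal.Quotient.mk p) = I ⊔ p := by
      rw [Ideal.comap_map_of_surjective _ Ideal.Quotient.mk_surjective, ← RingHom.ker_eq_comap_bot,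
        Ideal.mk_ker]
    rw [← h1, h0, Ideal.comap_top]
  have hkr : ⨅ j : ℕ, (I.map (Ideal.Quotient.mk p)) ^ j = ⊥ :=
    Ideal.iInf_pow_eq_bot_of_isDomain _ hI'
  obtain ⟨j, hj⟩ := eventually_bot (W.map q.toLinearMap)
    (fun j => ((I.map (Ideal.Quotient.mk p)) ^ j).restrictScalars k)
    (fun i j hij x hx => Ideal.pow_le_pow_right hij hx) (by
      ext x
      rw [Submodule.mem_iInf, Submodule.mem_bot]
      have h1 : x ∈ ⨅ j : ℕ, (I.map (Ideal.Quotient.mk p)) ^ j ↔ x = 0 := by
        rw [hkr, Ideal.mem_bot]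
      rw [← h1, Submodule.mem_iInf]
      rfl)
  refine ⟨j, fun x hx hO => ?_⟩
  obtain ⟨w, hw, hxw⟩ := hW' x hO
  have h1 : Ideal.Quotient.mk p x = Ideal.Quotient.mk p w := Ideal.Quotient.eq.2 hxw
  have h2 : Ideal.Quotient.mk p x ∈ W.map q.toLinearMap := by
    rw [h1]
    exact ⟨w, hw, rfl⟩
  have h3 : Ideal.Quotient.mk p x ∈ ((I.map (Ideal.Quotient.mk p)) ^ j).restrictScalars k := by
    show Ideal.Quotient.mk p x ∈ (I.map (Ideal.Quotient.mk p)) ^ j
    rw [← Ideal.map_pow]
    exact Ideal.mem_map_of_mem _ hx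
  have h4 := hj _ h2 h3
  rw [Ideal.Quotient.eq_zero_iff_mem, ← hι] at h4
  exact h4

/-- **noetherian algebras over fields with one place at infinity on each component** -/
theorem aff (hC : ClosedE C) (hM : ∀ (G : Type) [Group G], derivedSeries G 2 = ⊥ → C G)
    {k A : Type} [Field k] [CommRing A] [Algebra k A] [IsNoetherianRing A] (I : Ideal A)
    (h : ∀ p ∈ minimalPrimes A, I ⊔ p ≠ ⊤ ∧ ∃ (D : Type) (_ : DivisionRing D) (V : DV D)
      (ι : A →+* D), RingHom.ker ι = p ∧ ∀ m : ℤ, ∃ W : Submodule k A, FiniteDimensional k W ∧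
        ∀ x, V.O m (ι x) → ∃ w ∈ W, x - w ∈ p)
    (hI : C (Matrix (Fin 2) (Fin 2) (A ⧸ I))ˣ) : C (Matrix (Fin 2) (Fin 2) A)ˣ := by
  classical
  have key : ∀ F : Finset (Ideal A), (∀ p ∈ F, p ∈ minimalPrimes A) →
      C (Matrix (Fin 2) (Fin 2) (A ⧸ (I ⊓ F.inf id)))ˣ := by
    intro F
    induction F using Finset.induction_on with
    | empty =>
      intro _
      rw [Finset.inf_empty, inf_top_eq]
      exact hI
    | insert p F _ ih =>
      intro hF
      have e : I ⊓ (insert p F).inf id = (I ⊓ F.inf id) ⊓ p := by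
        rw [Finset.inf_insert, id, inf_comm p, inf_assoc]
      have hp := hF p (Finset.mem_insert_self _ _)
      obtain ⟨h1, D, _, V, ι, h2, h3⟩ := h p hp
      have hpp : p.IsPrime := hp.1.1
      rw [e]
      have h4 : p = RingHom.ker ι := h2.symm
      have h5 := step_ideal hC hM V ι (I ⊓ F.inf id) (fun m => by
        obtain ⟨j, hj⟩ := aff_fil I p h1 V ι h2 h3 m
        exact ⟨j, fun x hx => hj x (Ideal.pow_right_mono inf_le_left j hx)⟩)
        (ih fun q hq => hF q (Finset.mem_insert_of_mem hq))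
      rw [h2] at h5
      exact h5
  have hfin : (minimalPrimes A).Finite := minimalPrimes.finite_of_isNoetherianRing A
  have h1 := key hfin.toFinset fun p hp => hfin.mem_toFinset.1 hp
  have hle : I ⊓ hfin.toFinset.inf id ≤ nilradical A := by
    intro x hx
    rw [nilradical, ← Ideal.sInf_minimalPrimes, Submodule.mem_sInf]
    intro q hq
    have h2 : hfin.toFinset.inf id ≤ q := Finset.inf_le (f := id) (hfin.mem_toFinset.2 hq)
    exact h2 hx.2
  obtain ⟨n, hn⟩ := IsNoetherianRing.isNilpotent_nilradical A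
  refine nilp hC hM _ n ?_ h1
  rw [eq_bot_iff]
  refine le_trans (Ideal.pow_right_mono hle n) ?_
  rw [hn]
  exact le_rfl

end Pool.Agent.L7h61.FJ
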