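import Pool.Agent.L7h61.FJ.GrdS
import Pool.Agent.L7h61.FJ.Aff

/-!
# Corollaries: commutative graded rings, polynomials
-/

set_option autoImplicit false

namespace Pool.Agent.L7h61.FJ

open Pool.Agent.Y110.FJ

variable {C : ∀ (G : Type) [Group G], Prop}

/-- commutative graded rings and their parts of degree zero -/
theorem grd_iff (hC : ClosedE C) (hM : ∀ (G : Type) [Group G], derivedSeries G 2 = ⊥ → C G)
    {A ς : Type} [CommRing A] [SetLike ς A] [AddSubgroupClass ς A] (𝒜 : ℕ → ς) [GradedRing 𝒜] :
    C (Matrix (Fin 2) (Fin 2) A)ˣ ↔ C (Matrix (Fin 2) (Fin 2) (𝒜 0))ˣ := by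
  constructor
  · intro h
    let f : (𝒜 0) →+* A :=
      { toFun := fun x => x
        map_one' := rfl
        map_mul' := fun _ _ => rfl
        map_zero' := rfl
        map_add' := fun _ _ => rfl }
    exact emb hC f (fun x y hxy => Subtype.ext hxy) h
  · intro h
    refine grd_comm 𝒜 hC hM (GradedRing.projZeroRingHom' 𝒜) (fun a ha => ?_) h
    have h1 := congrArg (fun z : 𝒜 0 => (z : A)) ha
    simpa using h1

section mv

attribute [local instance] MvPolynomial.gradedAlgebra

/-- polynomials -/
theorem mv_iff (hC : ClosedE C) (hM : ∀ (G : Type) [Group G], derivedSeries G 2 = ⊥ → C G)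
    {B σ : Type} [CommRing B] :
    C (Matrix (Fin 2) (Fin 2) (MvPolynomial σ B))ˣ ↔ C (Matrix (Fin 2) (Fin 2) B)ˣ := by
  constructor
  · intro h
    exact emb hC (MvPolynomial.C : B →+* MvPolynomial σ B) (MvPolynomial.C_injective σ B) h
  · intro h
    refine grd_comm (MvPolynomial.homogeneousSubmodule σ B) hC hM MvPolynomial.constantCoeff
      (fun a ha => ?_) h
    have h1 : (DirectSum.decompose (MvPolynomial.homogeneousSubmodule σ B) a 0 :
        MvPolynomial σ B) = MvPolynomial.homogeneousComponent 0 a :=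
      MvPolynomial.decomposition.decompose'_apply a 0
    rw [h1, MvPolynomial.homogeneousComponent_zero]
    rw [MvPolynomial.constantCoeff_eq] at ha
    rw [ha, map_zero]

end mv

/-- rings in which all finitely generated subrings are finite -/
theorem lf_ring (hC : ClosedE C) {B : Type} [CommRing B]
    (hB : ∀ s : Finset B, Finite (Subring.closure (s : Set B))) :
    C (Matrix (Fin 2) (Fin 2) B)ˣ := by
  classical
  refine Pool.Agent.Y430.SS.of_directed hC.base _ (Finset (Matrix (Fin 2) (Fin 2) B)ˣ)
    (fun i j => ?_)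
    (fun s => Subgroup.closure (s : Set (Matrix (Fin 2) (Fin 2) B)ˣ))
    (fun s t h => Subgroup.closure_mono (by exact_mod_cast h))
    (fun g => ⟨{g}, Subgroup.subset_closure (by simp)⟩) (fun s => ?_)
  · exact ⟨i ∪ j, Finset.subset_union_left, Finset.subset_union_right⟩
  obtain ⟨X, hX⟩ : ∃ X : Finset B, X = s.biUnion fun g =>
      (Finset.univ.image fun p : Fin 2 × Fin 2 => g.1 p.1 p.2) ∪
      (Finset.univ.image fun p : Fin 2 × Fin 2 => g⁻¹.1 p.1 p.2) := ⟨_, rfl⟩
  obtain ⟨R, hR⟩ : ∃ R : Subring B, R = Subring.closure (X : Set B) := ⟨_, rfl⟩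
  have hfin : Finite R := by rw [hR]; exact hB X
  have hfin2 : Finite (Matrix (Fin 2) (Fin 2) R)ˣ := inferInstance
  have hfin3 : Finite (gm R.subtype).range :=
    Finite.of_surjective _ (gm R.subtype).rangeRestrict_surjective
  have hle : Subgroup.closure (s : Set (Matrix (Fin 2) (Fin 2) B)ˣ) ≤ (gm R.subtype).range := by
    rw [Subgroup.closure_le]
    intro g hg
    have m1 : ∀ i k, g.1 i k ∈ R := by
      intro i k
      rw [hR]
      apply Subring.subset_closure
      rw [hX]
      simp only [Finset.coe_biUnion, Set.mem_iUnion]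
      exact ⟨g, hg, by simp only [Finset.coe_union]; exact Or.inl (by
        simp only [Finset.coe_image, Finset.coe_univ]
        exact ⟨(i, k), Set.mem_univ _, rfl⟩)⟩
    have m2 : ∀ i k, g⁻¹.1 i k ∈ R := by
      intro i k
      rw [hR]
      apply Subring.subset_closure
      rw [hX]
      simp only [Finset.coe_biUnion, Set.mem_iUnion]
      exact ⟨g, hg, by simp only [Finset.coe_union]; exact Or.inr (by
        simp only [Finset.coe_image, Finset.coe_univ]
        exact ⟨(i, k), Set.mem_univ _, rfl⟩)⟩
    let a : Matrix (Fin 2) (Fin 2) R := fun i k => ⟨g.1 i k, m1 i k⟩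
    let b : Matrix (Fin 2) (Fin 2) R := fun i k => ⟨g⁻¹.1 i k, m2 i k⟩
    have inj : Function.Injective (R.subtype.mapMatrix : Matrix (Fin 2) (Fin 2) R →+* _) := by
      intro x y hxy
      ext i k
      exact congrFun (congrFun hxy i) k
    have ea : R.subtype.mapMatrix a = g.1 := rfl
    have eb : R.subtype.mapMatrix b = g⁻¹.1 := rfl
    have hab : a * b = 1 := by
      apply inj
      rw [map_mul, ea, eb, map_one, ← Units.val_mul, mul_inv_cancel, Units.val_one]
    have hba : b * a = 1 := by
      apply inj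
      rw [map_mul, ea, eb, map_one, ← Units.val_mul, inv_mul_cancel, Units.val_one]
    exact ⟨⟨a, b, hab, hba⟩, Units.ext ea⟩
  exact Pool.Agent.R941.FJ.C_le hC.base hle (Pool.Agent.Y430.SS.of_finite hC.base _ hfin3)

end Pool.Agent.L7h61.FJ
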