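import Mathlib

/-!
# Nilpotent two by two matrices over a division ring
-/

set_option autoImplicit false

namespace Pool.Agent.L7h61.FJ

variable {D : Type} [DivisionRing D]

/-- a matrix of rank at most one, as the product of a column and a row -/
def R1 (x : Matrix (Fin 2) (Fin 2) D) (u r : Fin 2 → D) : Prop := ∀ i j, x i j = u i * r j

theorem R1.mul {x x' : Matrix (Fin 2) (Fin 2) D} {u r u' r' : Fin 2 → D} (h : R1 x u r)
    (h' : R1 x' u' r') (i j : Fin 2) :
    (x * x') i j = u i * (r 0 * u' 0 + r 1 * u' 1) * r' j := by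
  rw [Matrix.mul_apply, Fin.sum_univ_two, h, h, h', h']
  simp only [mul_add, add_mul, mul_assoc]

theorem R1.pow {x : Matrix (Fin 2) (Fin 2) D} {u r : Fin 2 → D} (h : R1 x u r) (k : ℕ)
    (i j : Fin 2) : (x ^ (k + 1)) i j = u i * (r 0 * u 0 + r 1 * u 1) ^ k * r j := by
  induction k generalizing i j with
  | zero => simp [h i j]
  | succ k ih =>
    rw [pow_succ, Matrix.mul_apply, Fin.sum_univ_two, ih, ih, h, h, pow_succ _ k]
    simp only [mul_add, add_mul, mul_assoc]

/-- a nilpotent matrix has rank at most one -/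
theorem exists_R1 {x : Matrix (Fin 2) (Fin 2) D} {J : ℕ} (h : x ^ J = 0) :
    ∃ u r : Fin 2 → D, R1 x u r := by
  classical
  have hex : ∃ J, x ^ J = 0 := ⟨J, h⟩
  set k := Nat.find hex with hk
  have hk0 : x ^ k = 0 := Nat.find_spec hex
  have hk1 : k ≠ 0 := by
    intro h0
    rw [h0, pow_zero] at hk0
    exact one_ne_zero hk0
  obtain ⟨m, hm⟩ := Nat.exists_eq_succ_of_ne_zero hk1
  have hm1 : x ^ m ≠ 0 := Nat.find_min hex (by omega)
  rw [hm, Nat.succ_eq_add_one, pow_succ] at hk0
  -- a row of `x ^ m`
  obtain ⟨l, j, hl⟩ : ∃ l j, (x ^ m) l j ≠ 0 := by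
    by_contra h0
    push Not at h0
    exact hm1 (by ext i j; exact h0 i j)
  have key : ∀ c, (x ^ m) l 0 * x 0 c + (x ^ m) l 1 * x 1 c = 0 := by
    intro c
    have := congrFun (congrFun hk0 l) c
    rwa [Matrix.mul_apply, Fin.sum_univ_two] at this
  set a := (x ^ m) l 0 with ha
  set b := (x ^ m) l 1 with hb
  by_cases h0 : a = 0
  · have hb0 : b ≠ 0 := by
      fin_cases j
      · exact absurd h0 hl
      · exact hl
    refine ⟨![1, 0], fun c => x 0 c, ?_⟩
    intro i c
    fin_cases i
    · simp
    · have := key c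
      rw [h0, zero_mul, zero_add] at this
      have h1 := (mul_eq_zero.1 this).resolve_left hb0
      simpa using h1
  · refine ⟨![-(a⁻¹ * b), 1], fun c => x 1 c, ?_⟩
    intro i c
    fin_cases i
    · have h1 := congrArg (fun z => a⁻¹ * z) (key c)
      simp only [mul_add, mul_zero, ← mul_assoc, inv_mul_cancel₀ h0, one_mul] at h1
      have h2 := eq_neg_of_add_eq_zero_left h1
      simpa using h2
    · simp

/-- a nilpotent matrix has square zero -/
theorem sq_zero {x : Matrix (Fin 2) (Fin 2) D} {J : ℕ} (h : x ^ J = 0) : x * x = 0 := by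
  obtain ⟨u, r, hx⟩ := exists_R1 h
  by_cases h0 : x = 0
  · rw [h0, mul_zero]
  obtain ⟨i, j, hij⟩ : ∃ i j, x i j ≠ 0 := by
    by_contra h1
    push Not at h1
    exact h0 (by ext i j; exact h1 i j)
  rw [hx] at hij
  have hu : u i ≠ 0 := left_ne_zero_of_mul hij
  have hr : r j ≠ 0 := right_ne_zero_of_mul hij
  have hs : r 0 * u 0 + r 1 * u 1 = 0 := by
    rcases J with _ | k
    · rw [pow_zero] at h
      exact absurd h one_ne_zero
    · have h1 := hx.pow k i j
      rw [h] at h1
      have h2 : u i * (r 0 * u 0 + r 1 * u 1) ^ k * r j = 0 := h1.symm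
      have h3 := (mul_eq_zero.1 ((mul_eq_zero.1 h2).resolve_right hr)).resolve_left hu
      exact eq_zero_of_pow_eq_zero h3
  ext a b
  rw [hx.mul hx, hs]
  simp

/-- the products of two unipotent matrices whose product is unipotent -/
theorem commute_of_sq {x y : Matrix (Fin 2) (Fin 2) D} {J K : ℕ} (hx : x ^ J = 0) (hy : y ^ K = 0)
    (hz : (x + y + x * y) * (x + y + x * y) = 0) : x * y = 0 ∧ y * x = 0 := by
  have hxx := sq_zero hx
  have hyy := sq_zero hy
  -- the product of the sum
  have e : x * y + y * x + y * x * y + x * y * x + x * y * x * y = 0 := by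
    have : (x + y + x * y) * (x + y + x * y) =
        x * x + x * y + x * x * y + (y * x + y * y + y * x * y) +
          (x * y * x + x * (y * y) + x * y * x * y) := by
      noncomm_ring
    rw [this, hxx, hyy] at hz
    rw [← hz]
    noncomm_ring
  have e1 : x * y * x + x * y * x * y = 0 := by
    have h1 := congrArg (fun z => x * z) e
    have h2 : x * (x * y + y * x + y * x * y + x * y * x + x * y * x * y) =
        x * x * y + x * y * x + x * y * x * y + x * x * (y * x) + x * x * (y * x * y) := by
      noncomm_ring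
    simp only [h2, hxx, zero_mul, mul_zero, zero_add, add_zero] at h1
    exact h1
  have e2 : x * y * x = 0 := by
    have h1 := congrArg (fun z => z * (1 - y)) e1
    have h2 : (x * y * x + x * y * x * y) * (1 - y) = x * y * x - x * y * x * (y * y) := by
      noncomm_ring
    simp only [h2, hyy, zero_mul, mul_zero, sub_zero] at h1
    exact h1
  have e3 : y * x * y + x * y * x * y = 0 := by
    have h1 := congrArg (fun z => z * y) e
    have h2 : (x * y + y * x + y * x * y + x * y * x + x * y * x * y) * y =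
        x * (y * y) + y * x * y + y * x * (y * y) + x * y * x * y + x * y * x * (y * y) := by
      noncomm_ring
    simp only [h2, hyy, zero_mul, mul_zero, zero_add, add_zero] at h1
    exact h1
  have e4 : y * x * y = 0 := by
    rw [e2, zero_mul, add_zero] at e3
    exact e3
  have e5 : x * y + y * x = 0 := by
    rw [e2, e4, zero_mul, add_zero, add_zero, add_zero] at e
    exact e
  have e6 : x * y = 0 ∨ y * x = 0 := by
    obtain ⟨u, r, h1⟩ := exists_R1 hx
    obtain ⟨u', r', h2⟩ := exists_R1 hy
    by_cases h0 : x = 0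
    · left; rw [h0, zero_mul]
    obtain ⟨i, j, hij⟩ : ∃ i j, x i j ≠ 0 := by
      by_contra h1
      push Not at h1
      exact h0 (by ext i j; exact h1 i j)
    rw [h1] at hij
    have hu : u i ≠ 0 := left_ne_zero_of_mul hij
    have hr : r j ≠ 0 := right_ne_zero_of_mul hij
    have h3 : (x * y * x) i j =
        u i * ((r 0 * u' 0 + r 1 * u' 1) * (r' 0 * u 0 + r' 1 * u 1)) * r j := by
      rw [Matrix.mul_apply, Fin.sum_univ_two, h1.mul h2, h1.mul h2, h1, h1]
      simp only [mul_add, add_mul, mul_assoc]
    rw [e2] at h3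
    have h4 := (mul_eq_zero.1 ((mul_eq_zero.1 h3.symm).resolve_right hr)).resolve_left hu
    rcases mul_eq_zero.1 h4 with h5 | h5
    · left
      ext a b
      rw [h1.mul h2, h5]
      simp
    · right
      ext a b
      rw [h2.mul h1, h5]
      simp
  rcases e6 with h | h
  · refine ⟨h, ?_⟩
    rwa [h, zero_add] at e5
  · refine ⟨?_, h⟩
    rwa [h, add_zero] at e5

end Pool.Agent.L7h61.FJ
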