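import Pool.Agent.L7h61.FJ.Tree
import Pool.Agent.L7h61.FJ.Uni
import Pool.Agent.N509.TK.Loc2

/-!
# Groups of invertible two by two matrices: congruence subgroups which act on the tree with abelian
stabilizers
-/

set_option autoImplicit false

namespace Pool.Agent.L7h61.FJ

open Pool.Agent.Y110.FJ Pool.Agent.N509.TK

variable {C : ∀ (G : Type) [Group G], Prop}

/-- extensions with a kernel which acts on a tree with abelian stabilizers -/
theorem treeT (hC : ClosedE C) (hM : ∀ (G : Type) [Group G], derivedSeries G 2 = ⊥ → C G)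
    {G W : Type} [Group G] [MulAction G W] {T : SimpleGraph W}
    (hT : T.IsTree) (hact : ∀ (g : G) (u v : W), T.Adj u v → T.Adj (g • u) (g • v))
    (K : Subgroup G) [K.Normal] (hQ : C (G ⧸ K))
    (hab : ∀ (v : W) (x y : G), x ∈ K → y ∈ K → x • v = v → y • v = v → x * y = y * x) : C G := by
  refine hrelative hC hM hT hact K hQ ?_ ?_
  · intro g v
    apply hM
    -- the homomorphism to the quotient has a commutative image
    let L : Subgroup G := K ⊔ Subgroup.zpowers g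
    let S : Subgroup ↥L := MulAction.stabilizer ↥L v
    let q : ↥S →* G ⧸ K := (QuotientGroup.mk' K).comp (L.subtype.comp S.subtype)
    have hq : ∀ a : ↥S, q a ∈ Subgroup.zpowers (QuotientGroup.mk' K g) := by
      intro a
      have h1 : ((a : ↥L) : G) ∈ K ⊔ Subgroup.zpowers g := (a : ↥L).2
      have h2 : K ⊔ Subgroup.zpowers g ≤
          (Subgroup.zpowers (QuotientGroup.mk' K g)).comap (QuotientGroup.mk' K) := by
        refine sup_le ?_ ?_
        · intro x hx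
          rw [Subgroup.mem_comap]
          have : QuotientGroup.mk' K x = 1 := (QuotientGroup.eq_one_iff x).2 hx
          rw [this]
          exact one_mem _
        · rw [Subgroup.zpowers_le]
          exact Subgroup.mem_comap.2 (Subgroup.mem_zpowers _)
      exact h2 h1
    have hcom : ⁅(⊤ : Subgroup ↥S), (⊤ : Subgroup ↥S)⁆ ≤ q.ker := by
      rw [Subgroup.commutator_le]
      intro a _ b _
      rw [MonoidHom.mem_ker, map_commutatorElement, commutatorElement_eq_one_iff_mul_comm]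
      obtain ⟨m, hm⟩ := Subgroup.mem_zpowers_iff.1 (hq a)
      obtain ⟨n, hn⟩ := Subgroup.mem_zpowers_iff.1 (hq b)
      rw [← hm, ← hn, ← zpow_add, ← zpow_add, add_comm]
    have hd : derivedSeries ↥S 2 = ⁅⁅(⊤ : Subgroup ↥S), (⊤ : Subgroup ↥S)⁆,
        ⁅(⊤ : Subgroup ↥S), (⊤ : Subgroup ↥S)⁆⁆ := rfl
    show derivedSeries ↥S 2 = ⊥
    rw [hd, eq_bot_iff, Subgroup.commutator_le]
    intro a ha b hb
    have ha1 : ((a : ↥L) : G) ∈ K := (QuotientGroup.eq_one_iff _).1 (hcom ha)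
    have hb1 : ((b : ↥L) : G) ∈ K := (QuotientGroup.eq_one_iff _).1 (hcom hb)
    rw [Subgroup.mem_bot, commutatorElement_eq_one_iff_mul_comm]
    apply Subtype.ext
    apply Subtype.ext
    exact hab v _ _ ha1 hb1 a.2 b.2
  · intro g v u _
    refine ⟨G ⧸ K, inferInstance, (QuotientGroup.mk' K).comp (Subgroup.subtype _), hQ, ?_⟩
    intro x _ _ hx
    have h1 : ⁅Sb ((QuotientGroup.mk' K).comp (K ⊔ Subgroup.zpowers g).subtype).ker v,
        Sb ((QuotientGroup.mk' K).comp (K ⊔ Subgroup.zpowers g).subtype).ker v⁆ ≤ ⊥ := by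
      rw [Subgroup.commutator_le]
      intro a ha b hb
      rw [Subgroup.mem_bot, commutatorElement_eq_one_iff_mul_comm]
      have ha1 : (a : G) ∈ K := (QuotientGroup.eq_one_iff _).1 ha.2
      have hb1 : (b : G) ∈ K := (QuotientGroup.eq_one_iff _).1 hb.2
      apply Subtype.ext
      exact hab v _ _ ha1 hb1 ha.1 hb.1
    exact Subgroup.mem_bot.1 (h1 hx)

/-- the entries of a power -/
theorem pow_mem {R : Type} [Ring R] {I : Ideal R} {X : Matrix (Fin 2) (Fin 2) R}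
    (hX : ∀ i k, X i k ∈ I) (j : ℕ) (i k : Fin 2) : (X ^ j) i k ∈ I ^ j := by
  induction j generalizing i k with
  | zero =>
    rw [Submodule.pow_zero]
    exact (Ideal.one_eq_top (R := R)) ▸ Submodule.mem_top
  | succ j ih =>
    rw [pow_succ, Submodule.pow_succ, Matrix.mul_apply, Fin.sum_univ_two]
    exact add_mem (Ideal.mul_mem_mul (ih _ _) (hX _ _)) (Ideal.mul_mem_mul (ih _ _) (hX _ _))

section crit

variable {R S D : Type} [Ring R] [Ring S] [DivisionRing D]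

/-- the map on invertible matrices -/
def gm (f : R →+* S) : (Matrix (Fin 2) (Fin 2) R)ˣ →* (Matrix (Fin 2) (Fin 2) S)ˣ :=
  Units.map (f.mapMatrix : Matrix (Fin 2) (Fin 2) R →+* Matrix (Fin 2) (Fin 2) S).toMonoidHom

theorem gm_val (f : R →+* S) (g : (Matrix (Fin 2) (Fin 2) R)ˣ) (i k : Fin 2) :
    (gm f g).1 i k = f (g.1 i k) := rfl

theorem gm_val' (f : R →+* S) (g : (Matrix (Fin 2) (Fin 2) R)ˣ) :
    (gm f g).1 = f.mapMatrix g.1 := rfl

theorem sub_mem_of_ker {f : R →+* S} {g : (Matrix (Fin 2) (Fin 2) R)ˣ} (hg : gm f g = 1)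
    (i k : Fin 2) : (g.1 - 1) i k ∈ RingHom.ker f := by
  rw [RingHom.mem_ker, Matrix.sub_apply, map_sub, ← gm_val, hg, Units.val_one, sub_eq_zero,
    Matrix.one_apply, Matrix.one_apply]
  split_ifs <;> simp

/-- the elements of the kernel which are integral are unipotent -/
theorem unip_aux (V : DV D) {ε : R →+* S} {ι : R →+* D}
    (hfil : ∀ m : ℤ, ∃ j : ℕ, ∀ x ∈ (RingHom.ker ε) ^ j, V.O m (ι x) → ι x = 0)
    {z : (Matrix (Fin 2) (Fin 2) R)ˣ} (hz : gm ε z = 1) (s : (Matrix (Fin 2) (Fin 2) D)ˣ)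
    (h : V.MO 0 (s⁻¹ * (gm ι z * s)).1) : ∃ J : ℕ, ((gm ι z).1 - 1) ^ J = 0 := by
  obtain ⟨a, ha⟩ := V.exists_MO s.1
  obtain ⟨b, hb⟩ := V.exists_MO s⁻¹.1
  obtain ⟨j, hj⟩ := hfil (a + 0 + b)
  refine ⟨j, ?_⟩
  have e1 : ((gm ι z).1 - 1) ^ j = ι.mapMatrix ((z.1 - 1) ^ j) := by
    rw [map_pow, map_sub, map_one, gm_val']
  have hs : s.1 * s⁻¹.1 = 1 := by rw [← Units.val_mul, mul_inv_cancel, Units.val_one]
  have hs' : s⁻¹.1 * s.1 = 1 := by rw [← Units.val_mul, inv_mul_cancel, Units.val_one]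
  have e2 : ∀ k : ℕ, ((gm ι z).1 - 1) ^ k = s.1 * ((s⁻¹ * (gm ι z * s)).1 - 1) ^ k * s⁻¹.1 := by
    intro k
    induction k with
    | zero => rw [pow_zero, pow_zero, mul_one, hs]
    | succ k ih =>
      have e3 : (gm ι z).1 - 1 = s.1 * ((s⁻¹ * (gm ι z * s)).1 - 1) * s⁻¹.1 := by
        rw [mul_sub, sub_mul, mul_one, hs, Units.val_mul, Units.val_mul, ← mul_assoc, hs, one_mul,
          mul_assoc, hs, mul_one]
      rw [pow_succ, ih]
      rw [e3]
      rw [pow_succ]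
      calc s.1 * ((s⁻¹ * (gm ι z * s)).1 - 1) ^ k * s⁻¹.1 *
            (s.1 * ((s⁻¹ * (gm ι z * s)).1 - 1) * s⁻¹.1)
          = s.1 * ((s⁻¹ * (gm ι z * s)).1 - 1) ^ k * (s⁻¹.1 * s.1) *
            ((s⁻¹ * (gm ι z * s)).1 - 1) * s⁻¹.1 := by simp only [mul_assoc]
        _ = _ := by rw [hs', mul_one]; simp only [mul_assoc]
  have h1 : V.MO (a + 0 + b) (((gm ι z).1 - 1) ^ j) := by
    rw [e2]
    exact V.MO_mul (V.MO_mul ha (V.MO_pow (V.MO_sub h V.MO_one) j)) hb
  rw [e1] at h1 ⊢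
  ext i k
  exact hj _ (pow_mem (fun i k => sub_mem_of_ker hz i k) j i k) (h1 i k)

/-- the elements of the kernel in the stabilizer of a vertex are unipotent -/
theorem unip (V : DV D) {ε : R →+* S} {ι : R →+* D}
    (hfil : ∀ m : ℤ, ∃ j : ℕ, ∀ x ∈ (RingHom.ker ε) ^ j, V.O m (ι x) → ι x = 0)
    {z : (Matrix (Fin 2) (Fin 2) R)ˣ} (hz : gm ε z = 1) {v : V.Vx} (hv : gm ι z • v = v) :
    ∃ J : ℕ, ((gm ι z).1 - 1) ^ J = 0 := by
  obtain ⟨s, rfl⟩ := QuotientGroup.mk_surjective v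
  have h1 : V.cl s = V.cl (gm ι z * s) := hv.symm
  rw [V.cl_eq] at h1
  obtain ⟨n, h2, h3⟩ := h1
  rcases le_or_gt 0 n with hn | hn
  · exact unip_aux V hfil hz s (V.MO_mono hn h2)
  · have e1 : (s⁻¹ * (gm ι z * s))⁻¹ = s⁻¹ * (gm ι z⁻¹ * s) := by
      rw [mul_inv_rev, mul_inv_rev, inv_inv, map_inv, mul_assoc]
    rw [e1] at h3
    obtain ⟨J, hJ⟩ := unip_aux V (z := z⁻¹) hfil (by rw [map_inv, hz, inv_one]) s
      (V.MO_mono (by omega) h3)
    have h4 := sq_zero hJ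
    refine ⟨2, ?_⟩
    set A := (gm ι z).1 with hA
    set B := (gm ι z⁻¹).1 with hB
    have hAB : A * B = 1 := by
      rw [hA, hB, ← Units.val_mul, ← map_mul, mul_inv_cancel, map_one, Units.val_one]
    have hBA : B * A = 1 := by
      rw [hA, hB, ← Units.val_mul, ← map_mul, inv_mul_cancel, map_one, Units.val_one]
    have h5 : A - 1 = -(A * (B - 1)) := by
      rw [mul_sub, hAB, mul_one, neg_sub]
    have h6 : A - 1 = -((B - 1) * A) := by
      rw [sub_mul, hBA, one_mul, neg_sub]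
    rw [pow_two]
    nth_rw 1 [h5]
    rw [h6, neg_mul_neg]
    calc A * (B - 1) * ((B - 1) * A) = A * ((B - 1) * (B - 1)) * A := by simp only [mul_assoc]
      _ = 0 := by rw [h4, mul_zero, zero_mul]

/-- **the criterion** -/
theorem crit (hC : ClosedE C) (hM : ∀ (G : Type) [Group G], derivedSeries G 2 = ⊥ → C G)
    (V : DV D) (ε : R →+* S) (ι : R →+* D) (hinj : ∀ x, ε x = 0 → ι x = 0 → x = 0)
    (hfil : ∀ m : ℤ, ∃ j : ℕ, ∀ x ∈ (RingHom.ker ε) ^ j, V.O m (ι x) → ι x = 0)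
    (hS : C (Matrix (Fin 2) (Fin 2) S)ˣ) : C (Matrix (Fin 2) (Fin 2) R)ˣ := by
  let _ : MulAction (Matrix (Fin 2) (Fin 2) R)ˣ V.Vx := MulAction.compHom V.Vx (gm ι)
  have hsmul : ∀ (g : (Matrix (Fin 2) (Fin 2) R)ˣ) (v : V.Vx), g • v = gm ι g • v :=
    fun _ _ => rfl
  have hQ : C ((Matrix (Fin 2) (Fin 2) R)ˣ ⧸ (gm ε).ker) :=
    hC.base.of_injective _ _ (QuotientGroup.kerLift (gm ε)) (QuotientGroup.kerLift_injective _) hS
  refine treeT hC hM V.tree_isTree (fun g u v h => ?_) (gm ε).ker hQ ?_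
  · rw [hsmul, hsmul]
    exact V.adj_smul _ _ _ h
  · intro v x y hx hy hxv hyv
    rw [MonoidHom.mem_ker] at hx hy
    rw [hsmul] at hxv hyv
    have hxyv : gm ι (x * y) • v = v := by rw [map_mul, mul_smul, hyv, hxv]
    obtain ⟨J, hJ⟩ := unip V hfil hx hxv
    obtain ⟨K, hK⟩ := unip V hfil hy hyv
    obtain ⟨L, hL⟩ := unip V (z := x * y) hfil (by rw [map_mul, hx, hy, one_mul]) hxyv
    have h1 := sq_zero hL
    have e1 : (gm ι (x * y)).1 - 1 =
        ((gm ι x).1 - 1) + ((gm ι y).1 - 1) + ((gm ι x).1 - 1) * ((gm ι y).1 - 1) := by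
      rw [map_mul, Units.val_mul]
      noncomm_ring
    rw [e1] at h1
    obtain ⟨h2, h3⟩ := commute_of_sq hJ hK h1
    have h4 : (gm ι x).1 * (gm ι y).1 = (gm ι y).1 * (gm ι x).1 := by
      have e2 : (gm ι x).1 * (gm ι y).1 =
          1 + ((gm ι x).1 - 1) + ((gm ι y).1 - 1) + ((gm ι x).1 - 1) * ((gm ι y).1 - 1) := by
        noncomm_ring
      have e3 : (gm ι y).1 * (gm ι x).1 =
          1 + ((gm ι x).1 - 1) + ((gm ι y).1 - 1) + ((gm ι y).1 - 1) * ((gm ι x).1 - 1) := by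
        noncomm_ring
      rw [e2, e3, h2, h3]
    apply Units.ext
    ext i k
    rw [← sub_eq_zero]
    apply hinj
    · have h5 : gm ε (x * y) = gm ε (y * x) := by rw [map_mul, map_mul, hx, hy]
      have h6 := congrArg (fun z => z.1 i k) h5
      simp only [gm_val] at h6
      rw [map_sub, h6, sub_self]
    · have h5 : gm ι (x * y) = gm ι (y * x) := by
        apply Units.ext
        rw [map_mul, map_mul, Units.val_mul, Units.val_mul, h4]
      have h6 := congrArg (fun z => z.1 i k) h5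
      simp only [gm_val] at h6
      rw [map_sub, h6, sub_self]

end crit

end Pool.Agent.L7h61.FJ
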