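import Pool.Agent.L7h61.FJ.Lau
import Pool.Agent.L7h61.FJ.Main

/-!
# Two by two matrices over graded rings
-/

set_option autoImplicit false

namespace Pool.Agent.L7h61.FJ

open Pool.Agent.Y110.FJ

variable {C : ∀ (G : Type) [Group G], Prop}

theorem gm_injective {R S : Type} [Ring R] [Ring S] {f : R →+* S} (hf : Function.Injective f) :
    Function.Injective (gm f) := by
  intro a b h
  apply Units.ext
  ext i k
  apply hf
  have := congrArg (fun z => z.1 i k) h
  exact this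

theorem emb (hC : ClosedE C) {R S : Type} [Ring R] [Ring S] (f : R →+* S)
    (hf : Function.Injective f) (hS : C (Matrix (Fin 2) (Fin 2) S)ˣ) :
    C (Matrix (Fin 2) (Fin 2) R)ˣ :=
  hC.base.of_injective _ _ (gm f) (gm_injective hf) hS

section noncomm

variable {A S E ς : Type} [Ring A] [Ring S] [DivisionRing E] [SetLike ς A] [AddSubgroupClass ς A]
  (𝒜 : ℕ → ς) [GradedRing 𝒜]

theorem eq_zero_of_comp {a : A} (h : ∀ n : ℕ, (DirectSum.decompose 𝒜 a n : A) = 0) : a = 0 := by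
  classical
  rw [← DirectSum.sum_support_decompose 𝒜 a]
  exact Finset.sum_eq_zero fun i _ => h i

theorem lau_fil (j : A →+* E) (ε : A →+* S)
    (hε : ∀ a, ε a = 0 → (DirectSum.decompose 𝒜 a 0 : A) = 0) (m : ℤ) :
    ∃ k : ℕ, ∀ x ∈ (RingHom.ker ε) ^ k, (lsV E).O m (lau 𝒜 j x) → lau 𝒜 j x = 0 :=
  ⟨(1 - m).toNat, fun _ hx h => lau_zero_of_O 𝒜 (by omega)
    (pow_comp 𝒜 (fun a ha => hε a ha) _ hx) h⟩

/-- graded rings which embed in division rings -/
theorem grd_div (hC : ClosedE C) (hM : ∀ (G : Type) [Group G], derivedSeries G 2 = ⊥ → C G)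
    (j : A →+* E) (hj : Function.Injective j) (ε : A →+* S)
    (hε : ∀ a, ε a = 0 → (DirectSum.decompose 𝒜 a 0 : A) = 0)
    (hS : C (Matrix (Fin 2) (Fin 2) S)ˣ) : C (Matrix (Fin 2) (Fin 2) A)ˣ := by
  refine crit hC hM (lsV E) ε (lau 𝒜 j) (fun x _ h => ?_) (lau_fil 𝒜 j ε hε) hS
  rw [lau_eq_zero] at h
  exact eq_zero_of_comp 𝒜 fun n => hj (by rw [h n, map_zero])

end noncomm

/-! ### ideals -/

theorem step_ideal (hC : ClosedE C) (hM : ∀ (G : Type) [Group G], derivedSeries G 2 = ⊥ → C G)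
    {R D : Type} [CommRing R] [DivisionRing D] (V : DV D) (ι : R →+* D) (I : Ideal R)
    (hfil : ∀ m : ℤ, ∃ j : ℕ, ∀ x ∈ I ^ j, V.O m (ι x) → ι x = 0)
    (hI : C (Matrix (Fin 2) (Fin 2) (R ⧸ I))ˣ) :
    C (Matrix (Fin 2) (Fin 2) (R ⧸ (I ⊓ RingHom.ker ι)))ˣ := by
  obtain ⟨K, hK⟩ : ∃ K : Ideal R, K = I ⊓ RingHom.ker ι := ⟨_, rfl⟩
  rw [← hK]
  have hKI : K ≤ I := by rw [hK]; exact inf_le_left
  have hKι : ∀ x ∈ K, ι x = 0 := by
    intro x hx
    rw [hK] at hx
    exact hx.2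
  let ε : R ⧸ K →+* R ⧸ I := Ideal.Quotient.factor hKI
  let ι' : R ⧸ K →+* D := Ideal.Quotient.lift K ι hKι
  refine crit hC hM V ε ι' ?_ ?_ hI
  · intro x h1 h2
    obtain ⟨y, rfl⟩ := Ideal.Quotient.mk_surjective x
    rw [Ideal.Quotient.eq_zero_iff_mem, hK]
    exact ⟨Ideal.Quotient.eq_zero_iff_mem.1 h1, h2⟩
  · intro m
    obtain ⟨j, hj⟩ := hfil m
    refine ⟨j, fun x hx hO => ?_⟩
    have h1 : RingHom.ker ε ≤ I.map (Ideal.Quotient.mk K) := by
      intro z hz
      obtain ⟨y, rfl⟩ := Ideal.Quotient.mk_surjective z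
      exact Ideal.mem_map_of_mem _ (Ideal.Quotient.eq_zero_iff_mem.1 hz)
    have h2 : x ∈ (I ^ j).map (Ideal.Quotient.mk K) := by
      rw [Ideal.map_pow]
      exact Ideal.pow_right_mono h1 j hx
    obtain ⟨y, hy, rfl⟩ := (Ideal.mem_map_iff_of_surjective _ Ideal.Quotient.mk_surjective).1 h2
    exact hj y hy hO

/-! ### nilpotent ideals -/

/-- kernels of square zero -/
theorem sqz (hC : ClosedE C) (hM : ∀ (G : Type) [Group G], derivedSeries G 2 = ⊥ → C G)
    {R S : Type} [Ring R] [Ring S] (π : R →+* S) (h : ∀ x y, π x = 0 → π y = 0 → x * y = 0)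
    (hS : C (Matrix (Fin 2) (Fin 2) S)ˣ) : C (Matrix (Fin 2) (Fin 2) R)ˣ := by
  let _ : MulAction (Matrix (Fin 2) (Fin 2) R)ˣ Unit :=
    { smul := fun _ x => x
      one_smul := fun _ => rfl
      mul_smul := fun _ _ _ => rfl }
  have hQ : C ((Matrix (Fin 2) (Fin 2) R)ˣ ⧸ (gm π).ker) :=
    hC.base.of_injective _ _ (QuotientGroup.kerLift (gm π)) (QuotientGroup.kerLift_injective _) hS
  have hT : (⊥ : SimpleGraph Unit).IsTree :=
    ⟨⟨fun u v => by rw [Subsingleton.elim u v]⟩, SimpleGraph.isAcyclic_bot⟩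
  refine treeT hC hM hT (fun g u v huv => absurd huv (by simp)) (gm π).ker hQ ?_
  intro _ x y hx hy _ _
  rw [MonoidHom.mem_ker] at hx hy
  have key : ∀ x y : (Matrix (Fin 2) (Fin 2) R)ˣ, gm π x = 1 → gm π y = 1 →
      (x.1 - 1) * (y.1 - 1) = 0 := by
    intro x y hx hy
    ext i k
    rw [Matrix.mul_apply, Fin.sum_univ_two, h _ _ (sub_mem_of_ker hx _ _) (sub_mem_of_ker hy _ _),
      h _ _ (sub_mem_of_ker hx _ _) (sub_mem_of_ker hy _ _), add_zero, Matrix.zero_apply]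
  apply Units.ext
  rw [Units.val_mul, Units.val_mul]
  have e2 : x.1 * y.1 = 1 + (x.1 - 1) + (y.1 - 1) + (x.1 - 1) * (y.1 - 1) := by
    noncomm_ring
  have e3 : y.1 * x.1 = 1 + (x.1 - 1) + (y.1 - 1) + (y.1 - 1) * (x.1 - 1) := by
    noncomm_ring
  rw [e2, e3, key x y hx hy, key y x hy hx]

/-- nilpotent ideals -/
theorem nilp (hC : ClosedE C) (hM : ∀ (G : Type) [Group G], derivedSeries G 2 = ⊥ → C G)
    {R : Type} [CommRing R] (I : Ideal R) (k : ℕ) (hk : I ^ k = ⊥)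
    (hI : C (Matrix (Fin 2) (Fin 2) (R ⧸ I))ˣ) : C (Matrix (Fin 2) (Fin 2) R)ˣ := by
  have key : ∀ j : ℕ, C (Matrix (Fin 2) (Fin 2) (R ⧸ I ^ (j + 1)))ˣ := by
    intro j
    induction j with
    | zero => rw [zero_add, pow_one]; exact hI
    | succ j ih =>
      refine sqz hC hM (Ideal.Quotient.factor (Ideal.pow_le_pow_right (by omega) :
        I ^ (j + 1 + 1) ≤ I ^ (j + 1))) ?_ ih
      intro x y hx hy
      obtain ⟨a, rfl⟩ := Ideal.Quotient.mk_surjective x
      obtain ⟨b, rfl⟩ := Ideal.Quotient.mk_surjective y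
      have ha : a ∈ I ^ (j + 1) := Ideal.Quotient.eq_zero_iff_mem.1 hx
      have hb : b ∈ I ^ (j + 1) := Ideal.Quotient.eq_zero_iff_mem.1 hy
      rw [← map_mul, Ideal.Quotient.eq_zero_iff_mem]
      have h1 : a * b ∈ I ^ (j + 1) * I ^ (j + 1) := Ideal.mul_mem_mul ha hb
      rw [← pow_add] at h1
      exact Ideal.pow_le_pow_right (by omega) h1
  have h1 : I ^ (k + 1) = ⊥ := by
    rw [pow_succ, hk, Ideal.bot_mul]
  refine emb hC (Ideal.Quotient.mk (I ^ (k + 1))) ?_ (key k)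
  rw [RingHom.injective_iff_ker_eq_bot, Ideal.mk_ker, h1]

/-! ### commutative graded rings -/

section comm

variable {A B S ς : Type} [CommRing A] [CommRing B] [Ring S] [SetLike ς A] [AddSubgroupClass ς A]
  (𝒜 : ℕ → ς) [GradedRing 𝒜]

/-- the map to the residue field -/
noncomputable def jP (P : PrimeSpectrum A) : A →+* FractionRing (A ⧸ P.asIdeal) :=
  (algebraMap (A ⧸ P.asIdeal) (FractionRing (A ⧸ P.asIdeal))).comp (Ideal.Quotient.mk P.asIdeal)

theorem jP_eq_zero {P : PrimeSpectrum A} {a : A} (h : jP P a = 0) : a ∈ P.asIdeal := by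
  have h1 : algebraMap (A ⧸ P.asIdeal) (FractionRing (A ⧸ P.asIdeal))
      (Ideal.Quotient.mk P.asIdeal a) = 0 := h
  rw [map_eq_zero_iff _ (IsFractionRing.injective _ _)] at h1
  exact Ideal.Quotient.eq_zero_iff_mem.1 h1

/-- noetherian rings in commutative graded rings -/
theorem grd_noeth (hC : ClosedE C) (hM : ∀ (G : Type) [Group G], derivedSeries G 2 = ⊥ → C G)
    (ε : A →+* S) (hε : ∀ a, ε a = 0 → (DirectSum.decompose 𝒜 a 0 : A) = 0)
    (hS : C (Matrix (Fin 2) (Fin 2) S)ˣ) (f : B →+* A) (hf : Function.Injective f)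
    [IsNoetherianRing B] : C (Matrix (Fin 2) (Fin 2) B)ˣ := by
  classical
  obtain ⟨I₀, hI₀⟩ : ∃ I₀ : Ideal B, I₀ = RingHom.ker (ε.comp f) := ⟨_, rfl⟩
  obtain ⟨N, hN⟩ : ∃ N : PrimeSpectrum A → Ideal B,
      N = fun P => RingHom.ker ((lau 𝒜 (jP P)).comp f) := ⟨_, rfl⟩
  -- the induction
  have key : ∀ F : Finset (PrimeSpectrum A),
      C (Matrix (Fin 2) (Fin 2) (B ⧸ (I₀ ⊓ F.inf N)))ˣ := by
    intro F
    induction F using Finset.induction_on with
    | empty =>
      rw [Finset.inf_empty, inf_top_eq, hI₀]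
      exact emb hC (RingHom.kerLift (ε.comp f)) (RingHom.kerLift_injective _) hS
    | insert P F _ ih =>
      have e : I₀ ⊓ (insert P F).inf N = (I₀ ⊓ F.inf N) ⊓ N P := by
        rw [Finset.inf_insert, inf_comm (N P), inf_assoc]
      rw [e]
      have h1 : N P = RingHom.ker ((lau 𝒜 (jP P)).comp f) := by rw [hN]
      rw [h1]
      refine step_ideal hC hM (lsV _) ((lau 𝒜 (jP P)).comp f) _ (fun m => ?_) ih
      obtain ⟨k, hk⟩ := lau_fil 𝒜 (jP P) ε hε m
      refine ⟨k, fun x hx hO => hk (f x) ?_ hO⟩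
      have h2 : (I₀ ⊓ F.inf N) ^ k ≤ ((RingHom.ker ε) ^ k).comap f := by
        refine le_trans (Ideal.pow_right_mono inf_le_left k) ?_
        rw [← Ideal.map_le_iff_le_comap, Ideal.map_pow]
        refine Ideal.pow_right_mono ?_ k
        rw [Ideal.map_le_iff_le_comap]
        intro y hy
        rw [hI₀] at hy
        exact hy
      exact h2 hx
  -- the minimal primes
  have hfin : (minimalPrimes B).Finite := minimalPrimes.finite_of_isNoetherianRing B
  have hex : ∀ q ∈ minimalPrimes B, ∃ P : PrimeSpectrum A, P.asIdeal.comap f = q := by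
    intro q hq
    obtain ⟨p, hp, h⟩ := Ideal.exists_comap_eq_of_mem_minimalPrimes_of_injective hf q hq
    exact ⟨⟨p, hp⟩, h⟩
  choose g hg using hex
  obtain ⟨F, hF⟩ : ∃ F : Finset (PrimeSpectrum A), ∀ q ∈ minimalPrimes B, ∃ P ∈ F,
      P.asIdeal.comap f = q :=
    ⟨hfin.toFinset.attach.image fun q => g q.1 (hfin.mem_toFinset.1 q.2), fun q hq =>
      ⟨g q hq, Finset.mem_image.2 ⟨⟨q, hfin.mem_toFinset.2 hq⟩, Finset.mem_attach _ _, rfl⟩,
        hg q hq⟩⟩
  obtain ⟨I, hI⟩ : ∃ I : Ideal B, I = I₀ ⊓ F.inf N := ⟨_, rfl⟩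
  have hle : I ≤ nilradical B := by
    intro x hx
    rw [nilradical, ← Ideal.sInf_minimalPrimes, Submodule.mem_sInf]
    intro q hq
    rw [hI] at hx
    obtain ⟨P, hP, hPq⟩ := hF q hq
    have h1 : F.inf N ≤ N P := Finset.inf_le hP
    have h2 : x ∈ N P := h1 hx.2
    rw [hN] at h2
    have h3 : lau 𝒜 (jP P) (f x) = 0 := h2
    rw [lau_eq_zero] at h3
    rw [← hPq, Ideal.mem_comap]
    apply jP_eq_zero
    rw [← DirectSum.sum_support_decompose 𝒜 (f x), map_sum]
    exact Finset.sum_eq_zero fun i _ => h3 i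
  obtain ⟨k, hk⟩ := IsNoetherianRing.isNilpotent_nilradical B
  have hk' : I ^ k = ⊥ := by
    rw [eq_bot_iff]
    refine le_trans (Ideal.pow_right_mono hle k) ?_
    rw [hk]
    exact le_rfl
  have := key F
  rw [← hI] at this
  exact nilp hC hM I k hk' this

/-- **all commutative graded rings** -/
theorem grd_comm (hC : ClosedE C) (hM : ∀ (G : Type) [Group G], derivedSeries G 2 = ⊥ → C G)
    (ε : A →+* S) (hε : ∀ a, ε a = 0 → (DirectSum.decompose 𝒜 a 0 : A) = 0)
    (hS : C (Matrix (Fin 2) (Fin 2) S)ˣ) : C (Matrix (Fin 2) (Fin 2) A)ˣ := by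
  classical
  refine Pool.Agent.Y430.SS.of_directed hC.base _ (Finset (Matrix (Fin 2) (Fin 2) A)ˣ)
    (fun i j => ?_)
    (fun s => Subgroup.closure (s : Set (Matrix (Fin 2) (Fin 2) A)ˣ))
    (fun s t h => Subgroup.closure_mono (by exact_mod_cast h))
    (fun g => ⟨{g}, Subgroup.subset_closure (by simp)⟩) (fun s => ?_)
  · exact ⟨i ∪ j, Finset.subset_union_left, Finset.subset_union_right⟩
  -- the ring generated by the entries
  obtain ⟨X, hX⟩ : ∃ X : Finset A, X = s.biUnion fun g =>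
      (Finset.univ.image fun p : Fin 2 × Fin 2 => g.1 p.1 p.2) ∪
      (Finset.univ.image fun p : Fin 2 × Fin 2 => g⁻¹.1 p.1 p.2) := ⟨_, rfl⟩
  obtain ⟨B, hB⟩ : ∃ B : Subring A, B = Subring.closure (X : Set A) := ⟨_, rfl⟩
  have hNB : IsNoetherianRing B := by
    rw [hB]
    exact is_noetherian_subring_closure _ X.finite_toSet
  have h1 : C (Matrix (Fin 2) (Fin 2) B)ˣ :=
    grd_noeth 𝒜 hC hM ε hε hS B.subtype Subtype.val_injective
  have h2 : C (gm B.subtype).range :=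
    hC.base.of_injective _ _ (MonoidHom.ofInjective (gm_injective (f := B.subtype)
      Subtype.val_injective)).symm.toMonoidHom (MulEquiv.injective _) h1
  refine Pool.Agent.R941.FJ.C_le hC.base ?_ h2
  rw [Subgroup.closure_le]
  intro g hg
  have m1 : ∀ i k, g.1 i k ∈ B := by
    intro i k
    rw [hB]
    apply Subring.subset_closure
    rw [hX]
    simp only [Finset.coe_biUnion, Set.mem_iUnion]
    exact ⟨g, hg, by simp only [Finset.coe_union]; exact Or.inl (by
      simp only [Finset.coe_image, Finset.coe_univ]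
      exact ⟨(i, k), Set.mem_univ _, rfl⟩)⟩
  have m2 : ∀ i k, g⁻¹.1 i k ∈ B := by
    intro i k
    rw [hB]
    apply Subring.subset_closure
    rw [hX]
    simp only [Finset.coe_biUnion, Set.mem_iUnion]
    exact ⟨g, hg, by simp only [Finset.coe_union]; exact Or.inr (by
      simp only [Finset.coe_image, Finset.coe_univ]
      exact ⟨(i, k), Set.mem_univ _, rfl⟩)⟩
  let a : Matrix (Fin 2) (Fin 2) B := fun i k => ⟨g.1 i k, m1 i k⟩
  let b : Matrix (Fin 2) (Fin 2) B := fun i k => ⟨g⁻¹.1 i k, m2 i k⟩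
  have inj : Function.Injective (B.subtype.mapMatrix : Matrix (Fin 2) (Fin 2) B →+* _) := by
    intro x y hxy
    ext i k
    exact congrFun (congrFun hxy i) k
  have ea : B.subtype.mapMatrix a = g.1 := rfl
  have eb : B.subtype.mapMatrix b = g⁻¹.1 := rfl
  have hab : a * b = 1 := by
    apply inj
    rw [map_mul, ea, eb, map_one, ← Units.val_mul, mul_inv_cancel, Units.val_one]
  have hba : b * a = 1 := by
    apply inj
    rw [map_mul, ea, eb, map_one, ← Units.val_mul, inv_mul_cancel, Units.val_one]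
  exact ⟨⟨a, b, hab, hba⟩, Units.ext ea⟩

end comm

end Pool.Agent.L7h61.FJ
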