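import Pool.Agent.L7h61.FJ.Semi

/-!
# Semidirect products with groups of automorphisms of graded rings
-/

set_option autoImplicit false

namespace Pool.Agent.L7h61.FJ

open Pool.Agent.Y110.FJ

variable {C : ∀ (G : Type) [Group G], Prop}

/-- ring automorphisms act on the invertible matrices -/
def glAut (T : Type) [Ring T] : RingAut T →* MulAut (Matrix (Fin 2) (Fin 2) T)ˣ where
  toFun θ :=
    { toFun := gm (θ : T →+* T)
      invFun := gm (θ.symm : T →+* T)
      left_inv := by
        intro g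
        apply Units.ext
        ext i k
        rw [gm_val, gm_val]
        simp
      right_inv := by
        intro g
        apply Units.ext
        ext i k
        rw [gm_val, gm_val]
        simp
      map_mul' := map_mul _ }
  map_one' := by
    ext g
    rfl
  map_mul' θ θ' := by
    ext g
    rfl

theorem glAut_apply {T : Type} [Ring T] (θ : RingAut T) (g : (Matrix (Fin 2) (Fin 2) T)ˣ) :
    glAut T θ g = gm (θ : T →+* T) g := rfl

section ls

variable {E : Type} [DivisionRing E]

/-- the automorphism of the division ring of Laurent series -/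
noncomputable def lsAut (θ : E ≃+* E) : LS E ≃+* LS E where
  toFun x := x.map (θ : E →+* E)
  invFun x := x.map (θ.symm : E →+* E)
  left_inv x := by
    ext n
    simp
  right_inv x := by
    ext n
    simp
  map_mul' x y := HahnSeries.map_mul ((θ : E →+* E) : E →ₙ+* E)
  map_add' x y := by
    ext n
    simp

theorem lsAut_coeff (θ : E ≃+* E) (x : LS E) (n : ℤ) : (lsAut θ x).coeff n = θ (x.coeff n) := rfl

theorem lsAut_pres (θ : E ≃+* E) : Pres (lsV E) (lsAut θ) := by
  intro x hx
  show (lsAut θ x).order = x.order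
  have hx' : lsAut θ x ≠ 0 := by
    intro h
    exact hx ((lsAut θ).injective (by rw [h, map_zero]))
  apply le_antisymm
  · apply HahnSeries.order_le_of_coeff_ne_zero
    rw [lsAut_coeff]
    intro h
    have h1 : x.coeff x.order = 0 := θ.injective (by rw [h, map_zero])
    exact hx (HahnSeries.coeff_order_eq_zero.1 h1)
  · apply HahnSeries.order_le_of_coeff_ne_zero
    intro h
    apply hx'
    rw [← HahnSeries.coeff_order_eq_zero, lsAut_coeff, h, map_zero]

end ls

section grd

variable {A S E Γ ς : Type} [Ring A] [Ring S] [DivisionRing E] [Group Γ] [SetLike ς A]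
  [AddSubgroupClass ς A] (𝒜 : ℕ → ς) [GradedRing 𝒜]

/-- graded automorphisms respect the components -/
theorem dec_aut (a : RingAut A) (ha : ∀ n, ∀ x ∈ 𝒜 n, a x ∈ 𝒜 n) (x : A) (n : ℕ) :
    (DirectSum.decompose 𝒜 (a x) n : A) = a (DirectSum.decompose 𝒜 x n) := by
  classical
  induction x using DirectSum.Decomposition.inductionOn 𝒜 generalizing n with
  | zero => simp
  | @homogeneous i m =>
    have h1 := ha i m m.2
    by_cases hin : i = n
    · subst hin
      rw [DirectSum.decompose_of_mem_same 𝒜 h1, DirectSum.decompose_coe, DirectSum.of_eq_same]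
    · rw [DirectSum.decompose_of_mem_ne 𝒜 h1 hin, DirectSum.decompose_coe,
        DirectSum.of_eq_of_ne _ _ _ (Ne.symm hin)]
      simp
  | add x y hx hy =>
    rw [map_add, DirectSum.decompose_add, DirectSum.add_apply, DirectSum.decompose_add,
      DirectSum.add_apply]
    push_cast
    rw [map_add, hx, hy]

theorem lau_aut (j : A →+* E) (a : RingAut A) (ha : ∀ n, ∀ x ∈ 𝒜 n, a x ∈ 𝒜 n) (θ : E ≃+* E)
    (hθ : ∀ x, θ (j x) = j (a x)) (x : A) : lau 𝒜 j (a x) = lsAut θ (lau 𝒜 j x) := by
  ext n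
  rw [lsAut_coeff, lau_coeff, lau_coeff]
  split_ifs
  · rw [dec_aut 𝒜 a ha, hθ]
  · rw [map_zero]

/-- the filtration -/
noncomputable def fil (j : A →+* E) (ε : A →+* S) (i : ℕ) : AddSubgroup (LS E) :=
  ((RingHom.ker ε ^ i : Ideal A).toAddSubgroup).map (lau 𝒜 j).toAddMonoidHom

theorem fil_small (j : A →+* E) (ε : A →+* S)
    (hε : ∀ a, ε a = 0 → (DirectSum.decompose 𝒜 a 0 : A) = 0) :
    Small (lsV E) (fil 𝒜 j ε) := by
  constructor
  · rintro i k _ _ ⟨x, hx, rfl⟩ ⟨y, hy, rfl⟩
    refine ⟨x * y, ?_, map_mul (lau 𝒜 j) x y⟩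
    have h1 : x * y ∈ RingHom.ker ε ^ i * RingHom.ker ε ^ k := Ideal.mul_mem_mul hx hy
    rw [← Ideal.IsTwoSided.pow_add] at h1
    exact h1
  · intro m
    refine ⟨(1 - m).toNat + 1, by omega, ?_⟩
    rintro _ ⟨x, hx, rfl⟩ h
    exact lau_zero_of_O 𝒜 (k := (1 - m).toNat + 1) (by omega)
      (pow_comp 𝒜 (fun a ha => hε a ha) _ hx) h

/-- **semidirect products with groups of graded automorphisms** -/
theorem grd_semi (hC : ClosedE C) (hM : ∀ (G : Type) [Group G], derivedSeries G 2 = ⊥ → C G)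
    (j : A →+* E) (hj : Function.Injective j) (ε : A →+* S)
    (hε : ∀ a, ε a = 0 → (DirectSum.decompose 𝒜 a 0 : A) = 0)
    (a : Γ →* RingAut A) (s : Γ →* RingAut S) (ha : ∀ γ n, ∀ x ∈ 𝒜 n, a γ x ∈ 𝒜 n)
    (hθ : ∀ γ, ∃ θ : E ≃+* E, ∀ x, θ (j x) = j (a γ x)) (hs : ∀ γ x, ε (a γ x) = s γ (ε x))
    (hS : C ((Matrix (Fin 2) (Fin 2) S)ˣ ⋊[(glAut S).comp s] Γ)) :
    C ((Matrix (Fin 2) (Fin 2) A)ˣ ⋊[(glAut A).comp a] Γ) := by
  let f : (Matrix (Fin 2) (Fin 2) A)ˣ ⋊[(glAut A).comp a] Γ →*
      (Matrix (Fin 2) (Fin 2) S)ˣ ⋊[(glAut S).comp s] Γ :=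
    SemidirectProduct.map (gm ε) (MonoidHom.id Γ) (by
      intro γ
      ext1 g
      apply Units.ext
      ext i k
      exact hs γ _)
  have hQ : C (((Matrix (Fin 2) (Fin 2) A)ˣ ⋊[(glAut A).comp a] Γ) ⧸ f.ker) :=
    hC.base.of_injective _ _ (QuotientGroup.kerLift f) (QuotientGroup.kerLift_injective f) hS
  have hinj : Function.Injective (lau 𝒜 j) := by
    rw [injective_iff_map_eq_zero]
    intro x hx
    rw [lau_eq_zero] at hx
    exact eq_zero_of_comp 𝒜 fun n => hj (by rw [hx n, map_zero])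
  have hker : ∀ k : f.ker, k.1.right = 1 ∧ gm ε k.1.left = 1 := by
    intro k
    have h1 : f k.1 = 1 := k.2
    exact ⟨congrArg SemidirectProduct.right h1, congrArg SemidirectProduct.left h1⟩
  refine critS hC hM f.ker hQ fun g => ?_
  obtain ⟨θ, hθ'⟩ := hθ g.right
  refine ⟨LS E, inferInstance, lsV E, fil 𝒜 j ε,
    { toFun := fun k => gm (lau 𝒜 j) k.1.left
      map_one' := by
        show gm (lau 𝒜 j) 1 = 1
        rw [map_one]
      map_mul' := fun k l => by
        rw [← map_mul]
        congr 1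
        show k.1.left * (((glAut A).comp a) k.1.right) l.1.left = k.1.left * l.1.left
        rw [(hker k).1, map_one, MulAut.one_apply] },
    gm (lau 𝒜 j) g.left, lsAut θ, fil_small 𝒜 j ε hε, ?_, ?_, lsAut_pres θ, ?_⟩
  · intro k l hkl
    apply Subtype.ext
    exact SemidirectProduct.ext (gm_injective hinj hkl) ((hker k).1.trans (hker l).1.symm)
  · intro k i l
    show ((gm (lau 𝒜 j) k.1.left).1 - 1) i l ∈ _
    have h1 := sub_mem_of_ker (hker k).2 i l
    refine ⟨(k.1.left.1 - 1) i l, ?_, ?_⟩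
    · show (k.1.left.1 - 1) i l ∈ RingHom.ker ε ^ 1
      rw [Submodule.pow_one]
      exact h1
    · show lau 𝒜 j ((k.1.left.1 - 1) i l) = _
      rw [Matrix.sub_apply, Matrix.sub_apply, map_sub, gm_val, Matrix.one_apply, Matrix.one_apply]
      split_ifs <;> simp
  · intro k
    show gm (lau 𝒜 j) ((MulAut.conjNormal g k : f.ker).1.left) = _
    have h1 : (MulAut.conjNormal g k : f.ker).1.left =
        g.left * gm (a g.right : A →+* A) k.1.left * g.left⁻¹ := by
      rw [MulAut.conjNormal_apply]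
      simp only [SemidirectProduct.mul_left, SemidirectProduct.mul_right,
        SemidirectProduct.inv_left, (hker k).1, mul_one]
      congr 1
      have h2 : ((glAut A).comp a) g.right ((((glAut A).comp a) g.right⁻¹) g.left⁻¹) =
          g.left⁻¹ := by
        rw [← MulAut.mul_apply, ← map_mul, mul_inv_cancel, map_one, MulAut.one_apply]
      exact h2
    rw [h1, map_mul, map_mul, map_inv]
    congr 2
    refine Units.ext (Matrix.ext fun i l => ?_)
    exact lau_aut 𝒜 j (a g.right) (ha g.right) θ hθ' (k.1.left.1 i l)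

end grd

end Pool.Agent.L7h61.FJ
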