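import Pool.Agent.L7h61.FJ.Val

/-!
# Laurent series over a division ring and graded rings
-/

set_option autoImplicit false

namespace Pool.Agent.L7h61.FJ

open HahnSeries

section lau

variable (E : Type) [DivisionRing E]

/-- Laurent series over a division ring, without topology -/
abbrev LS : Type := HahnSeries ℤ E

theorem ls_unit (x : LS E) : IsUnit x ∨ x = 0 := by
  by_cases hx : x = 0
  · exact Or.inr hx
  left
  have h1 : (single x.order (1 : E) : LS E) * (ofPowerSeries ℤ E (LaurentSeries.powerSeriesPart x)) = x :=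
    LaurentSeries.single_order_mul_powerSeriesPart x
  rw [← h1]
  refine IsUnit.mul ?_ ?_
  · refine ⟨⟨single x.order (1 : E), single (-x.order) (1 : E), ?_, ?_⟩, rfl⟩
    · rw [single_mul_single, add_neg_cancel, mul_one]
      rfl
    · rw [single_mul_single, neg_add_cancel, mul_one]
      rfl
  · refine IsUnit.map (ofPowerSeries ℤ E) ?_
    rw [PowerSeries.isUnit_iff_constantCoeff, ← PowerSeries.coeff_zero_eq_constantCoeff_apply,
      LaurentSeries.powerSeriesPart_coeff, isUnit_iff_ne_zero]
    simpa using hx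

/-- the division ring of Laurent series -/
noncomputable instance lsDiv : DivisionRing (LS E) := DivisionRing.ofIsUnitOrEqZero (ls_unit E)

/-- the valuation by the order -/
noncomputable def lsV : DV (LS E) where
  v x := x.order
  map_mul a b ha hb := order_mul_of_ne_zero (mul_ne_zero (leadingCoeff_ne_zero.mpr ha)
    (leadingCoeff_ne_zero.mpr hb))
  map_add a b _ _ hab := min_order_le_order_add hab
  t := single 1 1
  t_ne := by simp
  v_t := order_single one_ne_zero

end lau

section grd

variable {A E ς : Type} [Ring A] [SetLike ς A] [AddSubgroupClass ς A] (𝒜 : ℕ → ς) [GradedRing 𝒜]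
  [DivisionRing E]

/-- the piece of the map to Laurent series -/
noncomputable def pc (j : A →+* E) (i : ℕ) : 𝒜 i →+ LS E :=
  (single.addMonoidHom (-(i : ℤ))).comp (j.toAddMonoidHom.comp (AddSubmonoidClass.subtype (𝒜 i)))

omit [GradedRing 𝒜] in
theorem pc_apply (j : A →+* E) (i : ℕ) (a : 𝒜 i) : pc 𝒜 j i a = single (-(i : ℤ)) (j a) := rfl

/-- the map to Laurent series -/
noncomputable def lau (j : A →+* E) : A →+* LS E :=
  (DirectSum.toSemiring (pc 𝒜 j) (by
    rw [pc_apply]
    show single (-((0 : ℕ) : ℤ)) (j 1) = 1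
    rw [map_one, Nat.cast_zero, neg_zero]
    rfl) (by
    intro i k a b
    rw [pc_apply, pc_apply, pc_apply]
    show single (-((i + k : ℕ) : ℤ)) (j ((a : A) * (b : A))) = _
    rw [map_mul, single_mul_single, Nat.cast_add, neg_add])).comp
  (DirectSum.decomposeRingEquiv 𝒜 : A →+* DirectSum ℕ fun i => 𝒜 i)

omit [GradedRing 𝒜] in
theorem lau_coeff_aux (j : A →+* E) (n : ℤ) (x : DirectSum ℕ fun i => 𝒜 i) :
    (DirectSum.toAddMonoid (pc 𝒜 j) x).coeff n = if n ≤ 0 then j (x (-n).toNat) else 0 := by
  induction x using DirectSum.induction_on with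
  | zero => simp
  | of i a =>
    rw [DirectSum.toAddMonoid_of, pc_apply]
    by_cases h : n = -(i : ℤ)
    · subst h
      have e : (- -(i : ℤ)).toNat = i := by omega
      rw [coeff_single_same, if_pos (by omega), e, DirectSum.of_eq_same]
    · rw [coeff_single_of_ne h]
      by_cases hn : n ≤ 0
      · rw [if_pos hn, DirectSum.of_eq_of_ne _ _ _ (by omega)]
        simp
      · rw [if_neg hn]
  | add x y hx hy =>
    rw [map_add, coeff_add, hx, hy, DirectSum.add_apply]
    split_ifs <;> simp

theorem lau_coeff (j : A →+* E) (n : ℤ) (a : A) :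
    (lau 𝒜 j a).coeff n = if n ≤ 0 then j (DirectSum.decompose 𝒜 a (-n).toNat) else 0 :=
  lau_coeff_aux 𝒜 j n _

theorem lau_eq_zero {j : A →+* E} {a : A} :
    lau 𝒜 j a = 0 ↔ ∀ n : ℕ, j (DirectSum.decompose 𝒜 a n) = 0 := by
  constructor
  · intro h n
    have h1 := lau_coeff 𝒜 j (-(n : ℤ)) a
    have e : (- -(n : ℤ)).toNat = n := by omega
    rw [h, coeff_zero, if_pos (by omega), e] at h1
    exact h1.symm
  · intro h
    ext n
    rw [lau_coeff, coeff_zero]
    split_ifs
    · exact h _
    · rfl

/-- the valuation bounds the degree -/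
theorem lau_zero_of_O {j : A →+* E} {a : A} {m : ℤ} {k : ℕ} (hk : -m < k)
    (ha : ∀ n < k, (DirectSum.decompose 𝒜 a n : A) = 0) (h : (lsV E).O m (lau 𝒜 j a)) :
    lau 𝒜 j a = 0 := by
  rcases h with h | h
  · exact h
  · have h' : m ≤ (lau 𝒜 j a).order := h
    ext n
    rw [coeff_zero]
    by_cases hn : n < m
    · exact coeff_eq_zero_of_lt_order (lt_of_lt_of_le hn h')
    · rw [lau_coeff]
      split_ifs
      · rw [ha _ (by omega), map_zero]
      · rfl

/-- the elements without component in degree zero -/
theorem pow_comp {I : Ideal A} (hI : ∀ a ∈ I, (DirectSum.decompose 𝒜 a 0 : A) = 0) (k : ℕ)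
    {a : A} (ha : a ∈ I ^ k) : ∀ n < k, (DirectSum.decompose 𝒜 a n : A) = 0 := by
  classical
  induction k generalizing a with
  | zero => intro n hn; omega
  | succ k ih =>
    rw [Submodule.pow_succ] at ha
    refine Submodule.mul_induction_on ha ?_ ?_
    · intro x hx y hy n hn
      rw [DirectSum.decompose_mul, DirectSum.coe_mul_apply]
      refine Finset.sum_eq_zero fun p hp => ?_
      rw [Finset.mem_filter] at hp
      have hp1 := hp.2
      by_cases h1 : p.1 < k
      · rw [ih hx _ h1, zero_mul]
      · have h2 : p.2 = 0 := by omega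
        rw [h2, hI y hy, mul_zero]
    · intro x y hx hy n hn
      rw [DirectSum.decompose_add, DirectSum.add_apply]
      push_cast
      rw [hx n hn, hy n hn, add_zero]

end grd

end Pool.Agent.L7h61.FJ
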