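import Mathlib

/-!
# The graph of a parent map is a tree

`p : V → V` lowers an integral height by one, and any two points have a common ancestor.
-/

set_option autoImplicit false

namespace Pool.Agent.L7h61.FJ

variable {V : Type}

/-- the graph of a parent map -/
def parG (p : V → V) (h : V → ℤ) (hp : ∀ x, h (p x) = h x - 1) : SimpleGraph V where
  Adj x y := p x = y ∨ p y = x
  symm := ⟨fun _ _ hxy => hxy.symm⟩
  loopless := ⟨fun x hx => by
    have h1 : p x = x := by rcases hx with hx | hx <;> exact hx
    have h2 := hp x
    rw [h1] at h2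
    omega⟩

theorem parG_adj {p : V → V} {h : V → ℤ} {hp : ∀ x, h (p x) = h x - 1} {x y : V} :
    (parG p h hp).Adj x y ↔ p x = y ∨ p y = x := Iff.rfl

theorem parG_reach {p : V → V} {h : V → ℤ} (hp : ∀ x, h (p x) = h x - 1) (x : V) (n : ℕ) :
    (parG p h hp).Reachable x (p^[n] x) := by
  induction n with
  | zero => exact SimpleGraph.Reachable.refl _
  | succ n ih =>
    rw [Function.iterate_succ_apply']
    exact ih.trans (SimpleGraph.Adj.reachable (Or.inl rfl))

theorem parG_isTree [Nonempty V] {p : V → V} {h : V → ℤ} (hp : ∀ x, h (p x) = h x - 1)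
    (hc : ∀ x y, ∃ m n : ℕ, p^[m] x = p^[n] y) : (parG p h hp).IsTree := by
  refine ⟨?_, ?_⟩
  · refine ⟨fun x y => ?_⟩
    obtain ⟨m, n, hmn⟩ := hc x y
    have h1 := parG_reach hp x m
    rw [hmn] at h1
    exact h1.trans (parG_reach hp y n).symm
  · intro u c hcyc
    classical
    -- a vertex of maximal height
    obtain ⟨w, hw, hmax⟩ : ∃ w ∈ c.support, ∀ x ∈ c.support, h x ≤ h w := by
      have hne : c.support.toFinset.Nonempty := ⟨u, by simp⟩
      obtain ⟨w, hw, hm⟩ := Finset.exists_max_image c.support.toFinset h hne
      exact ⟨w, by simpa using hw, fun x hx => hm x (by simpa using hx)⟩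
    have hc' := hcyc.rotate hw
    have hne : ¬ (c.rotate w hw).Nil := hc'.not_nil
    have h1 := (c.rotate w hw).adj_snd hne
    have h2 := (c.rotate w hw).adj_penultimate hne
    have hsup : ∀ x, x ∈ (c.rotate w hw).support → x ∈ c.support := by
      intro x hx
      exact (SimpleGraph.Walk.mem_support_rotate_iff c w hw).1 hx
    have hs : h (c.rotate w hw).snd ≤ h w := hmax _ (hsup _ (by
      exact SimpleGraph.Walk.getVert_mem_support _ _))
    have hpn : h (c.rotate w hw).penultimate ≤ h w := hmax _ (hsup _ (by
      exact SimpleGraph.Walk.getVert_mem_support _ _))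
    have e1 : p w = (c.rotate w hw).snd := by
      rcases h1 with h1 | h1
      · exact h1
      · have := hp (c.rotate w hw).snd
        rw [h1] at this
        omega
    have e2 : p w = (c.rotate w hw).penultimate := by
      rcases h2 with h2 | h2
      · have := hp (c.rotate w hw).penultimate
        rw [h2] at this
        omega
      · exact h2
    exact hc'.snd_ne_penultimate (e1.symm.trans e2)

end Pool.Agent.L7h61.FJ
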