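import Pool.Agent.L7h61.FJ.Cor

/-!
# Residual criterion; subrings of algebras with one place at infinity
-/

set_option autoImplicit false

namespace Pool.Agent.L7h61.FJ

open Pool.Agent.Y110.FJ Pool.Agent.N509.TK

variable {C : ∀ (G : Type) [Group G], Prop}

/-- **residual criterion**: the bounded parts are detected by homomorphisms to groups in `C` -/
theorem resid (hC : ClosedE C) (hM : ∀ (G : Type) [Group G], derivedSeries G 2 = ⊥ → C G)
    {G D : Type} [Group G] [DivisionRing D] (V : DV D) (ρ : G →* (Matrix (Fin 2) (Fin 2) D)ˣ)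
    (h : ∀ m : ℤ, ∃ (P : Type) (_ : Group P) (f : G →* P), C P ∧
      ∀ g, f g = 1 → (∀ i k, V.O m ((ρ g).1 i k)) → g = 1) : C G := by
  let _ : MulAction G V.Vx := MulAction.compHom V.Vx ρ
  have hsmul : ∀ (g : G) (v : V.Vx), g • v = ρ g • v := fun _ _ => rfl
  -- a homomorphism which is injective on the stabilizer
  have key : ∀ v : V.Vx, ∃ (P : Type) (_ : Group P) (f : G →* P), C P ∧
      ∀ g, f g = 1 → g • v = v → g = 1 := by
    intro v
    obtain ⟨s, rfl⟩ := QuotientGroup.mk_surjective v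
    obtain ⟨a, ha⟩ := V.exists_MO s.1
    obtain ⟨b, hb⟩ := V.exists_MO s⁻¹.1
    obtain ⟨P, _, f, hP, hf⟩ := h (a + 0 + b)
    have aux : ∀ g : G, f g = 1 → V.MO 0 (s⁻¹ * (ρ g * s)).1 → g = 1 := by
      intro g hg hs
      refine hf g hg ?_
      have e : (ρ g).1 = s.1 * (s⁻¹ * (ρ g * s)).1 * s⁻¹.1 := by
        rw [← Units.val_mul, ← Units.val_mul]
        congr 1
        simp only [mul_assoc, mul_inv_cancel, mul_one, mul_inv_cancel_left]
      rw [e]
      exact V.MO_mul (V.MO_mul ha hs) hb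
    refine ⟨P, inferInstance, f, hP, fun g hg hgv => ?_⟩
    have h1 : V.cl s = V.cl (ρ g * s) := hgv.symm
    rw [V.cl_eq] at h1
    obtain ⟨n, h2, h3⟩ := h1
    rcases le_or_gt 0 n with hn | hn
    · exact aux g hg (V.MO_mono hn h2)
    · have e1 : (s⁻¹ * (ρ g * s))⁻¹ = s⁻¹ * (ρ g⁻¹ * s) := by
        rw [mul_inv_rev, mul_inv_rev, inv_inv, map_inv, mul_assoc]
      rw [e1] at h3
      have h4 := aux g⁻¹ (by rw [map_inv, hg, inv_one]) (V.MO_mono (by omega) h3)
      exact inv_eq_one.1 h4
  refine hrelative hC hM V.tree_isTree (fun g u v huv => ?_) (⊤ : Subgroup G) ?_ ?_ ?_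
  · rw [hsmul, hsmul]
    exact V.adj_smul _ _ _ huv
  · have : Subsingleton (G ⧸ (⊤ : Subgroup G)) := QuotientGroup.subsingleton_quotient_top
    exact Pool.Agent.Y430.SS.of_finite hC.base _ inferInstance
  · intro g v
    obtain ⟨P, _, f, hP, hf⟩ := key v
    refine hC.base.of_injective _ _ (f.comp ((Subgroup.subtype _).comp (Subgroup.subtype _))) ?_ hP
    rw [injective_iff_map_eq_one]
    intro x hx
    apply Subtype.ext
    apply Subtype.ext
    exact hf _ hx x.2
  · intro g v u _
    obtain ⟨P, _, f, hP, hf⟩ := key v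
    refine ⟨P, inferInstance, f.comp (Subgroup.subtype _), hP, ?_⟩
    intro x _ _ hx
    have h1 : Sb (f.comp (⊤ ⊔ Subgroup.zpowers g : Subgroup G).subtype).ker v = ⊥ := by
      rw [eq_bot_iff]
      intro y hy
      rw [Subgroup.mem_bot]
      apply Subtype.ext
      exact hf _ hy.2 hy.1
    rw [h1, Subgroup.commutator_bot_left] at hx
    exact Subgroup.mem_bot.1 hx

/-- **subrings of noetherian algebras over fields with one place at infinity on each component** -/
theorem aff_sub (hC : ClosedE C) (hM : ∀ (G : Type) [Group G], derivedSeries G 2 = ⊥ → C G)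
    {k A R : Type} [Field k] [CommRing A] [Algebra k A] [IsNoetherianRing A] [CommRing R]
    (f : R →+* A) (hf : Function.Injective f) (I : Ideal A)
    (h : ∀ p ∈ minimalPrimes A, I ⊔ p ≠ ⊤ ∧ ∃ (D : Type) (_ : DivisionRing D) (V : DV D)
      (ι : A →+* D), RingHom.ker ι = p ∧ ∀ m : ℤ, ∃ W : Submodule k A, FiniteDimensional k W ∧
        ∀ x, V.O m (ι x) → ∃ w ∈ W, x - w ∈ p)
    (hI : C (Matrix (Fin 2) (Fin 2) (R ⧸ I.comap f))ˣ) : C (Matrix (Fin 2) (Fin 2) R)ˣ := by
  classical
  have key : ∀ F : Finset (Ideal A), (∀ p ∈ F, p ∈ minimalPrimes A) →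
      C (Matrix (Fin 2) (Fin 2) (R ⧸ (I.comap f ⊓ F.inf (Ideal.comap f))))ˣ := by
    intro F
    induction F using Finset.induction_on with
    | empty =>
      intro _
      rw [Finset.inf_empty, inf_top_eq]
      exact hI
    | insert p F _ ih =>
      intro hF
      have e : I.comap f ⊓ (insert p F).inf (Ideal.comap f) =
          (I.comap f ⊓ F.inf (Ideal.comap f)) ⊓ p.comap f := by
        rw [Finset.inf_insert, inf_comm (p.comap f), inf_assoc]
      have hp := hF p (Finset.mem_insert_self _ _)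
      obtain ⟨h1, D, _, V, ι, h2, h3⟩ := h p hp
      have hpp : p.IsPrime := hp.1.1
      rw [e]
      have h5 := step_ideal hC hM V (ι.comp f) (I.comap f ⊓ F.inf (Ideal.comap f)) (fun m => by
        obtain ⟨j, hj⟩ := aff_fil I p h1 V ι h2 h3 m
        refine ⟨j, fun x hx => hj (f x) ?_⟩
        have h6 : (I.comap f ⊓ F.inf (Ideal.comap f)) ^ j ≤ (I ^ j).comap f := by
          refine le_trans (Ideal.pow_right_mono inf_le_left j) ?_
          rw [← Ideal.map_le_iff_le_comap, Ideal.map_pow]
          exact Ideal.pow_right_mono Ideal.map_comap_le j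
        exact h6 hx)
        (ih fun q hq => hF q (Finset.mem_insert_of_mem hq))
      have h7 : RingHom.ker (ι.comp f) = p.comap f := by
        rw [← h2]
        rfl
      rw [h7] at h5
      exact h5
  have hfin : (minimalPrimes A).Finite := minimalPrimes.finite_of_isNoetherianRing A
  have h1 := key hfin.toFinset fun p hp => hfin.mem_toFinset.1 hp
  have hle : I.comap f ⊓ hfin.toFinset.inf (Ideal.comap f) ≤ (nilradical A).comap f := by
    intro x hx
    rw [Ideal.mem_comap, nilradical, ← Ideal.sInf_minimalPrimes, Submodule.mem_sInf]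
    intro q hq
    have h2 : hfin.toFinset.inf (Ideal.comap f) ≤ Ideal.comap f q :=
      Finset.inf_le (f := Ideal.comap f) (hfin.mem_toFinset.2 hq)
    exact h2 hx.2
  obtain ⟨n, hn⟩ := IsNoetherianRing.isNilpotent_nilradical A
  refine nilp hC hM _ n ?_ h1
  rw [eq_bot_iff]
  refine le_trans (Ideal.pow_right_mono hle n) ?_
  intro x hx
  have h8 : ((nilradical A).comap f) ^ n ≤ ((nilradical A) ^ n).comap f := by
    rw [← Ideal.map_le_iff_le_comap, Ideal.map_pow]
    exact Ideal.pow_right_mono Ideal.map_comap_le n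
  have h9 : f x ∈ (nilradical A) ^ n := h8 hx
  rw [hn] at h9
  have h10 : f x = 0 := h9
  rw [Ideal.mem_bot]
  exact hf (by rw [h10, map_zero])

end Pool.Agent.L7h61.FJ
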