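import Pool.Agent.L7h61.FJ.Grd

/-!
# Extensions with kernels in the groups of invertible two by two matrices
-/

set_option autoImplicit false

namespace Pool.Agent.L7h61.FJ

open Pool.Agent.Y110.FJ

variable {C : ∀ (G : Type) [Group G], Prop}

section semi

variable {D : Type} [DivisionRing D] (V : DV D)

/-- a multiplicative filtration of a part of `D` by additive subgroups `J j` such that for each `m`
some `J j`, `j > 0`, contains no nonzero element of value at least `m` -/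
def Small (J : ℕ → AddSubgroup D) : Prop :=
  (∀ i j x y, x ∈ J i → y ∈ J j → x * y ∈ J (i + j)) ∧
    ∀ m : ℤ, ∃ j : ℕ, 0 < j ∧ ∀ x ∈ J j, V.O m x → x = 0

theorem pow_memJ {J : ℕ → AddSubgroup D} (hJ : ∀ i j x y, x ∈ J i → y ∈ J j → x * y ∈ J (i + j))
    {X : Matrix (Fin 2) (Fin 2) D} (hX : ∀ i k, X i k ∈ J 1) (j : ℕ) (i k : Fin 2) :
    (X ^ (j + 1)) i k ∈ J (j + 1) := by
  induction j generalizing i k with
  | zero => rw [zero_add, pow_one]; exact hX i k
  | succ j ih =>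
    rw [pow_succ, Matrix.mul_apply, Fin.sum_univ_two]
    exact add_mem (hJ _ _ _ _ (ih _ _) (hX _ _)) (hJ _ _ _ _ (ih _ _) (hX _ _))

variable {V}

theorem unipS_aux {J : ℕ → AddSubgroup D} (hJ : Small V J) {z : (Matrix (Fin 2) (Fin 2) D)ˣ}
    (hz : ∀ i k, (z.1 - 1) i k ∈ J 1) (s : (Matrix (Fin 2) (Fin 2) D)ˣ)
    (h : V.MO 0 (s⁻¹ * (z * s)).1) : ∃ n : ℕ, (z.1 - 1) ^ n = 0 := by
  obtain ⟨a, ha⟩ := V.exists_MO s.1
  obtain ⟨b, hb⟩ := V.exists_MO s⁻¹.1
  obtain ⟨j, hj0, hj⟩ := hJ.2 (a + 0 + b)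
  refine ⟨j, ?_⟩
  have hs : s.1 * s⁻¹.1 = 1 := by rw [← Units.val_mul, mul_inv_cancel, Units.val_one]
  have hs' : s⁻¹.1 * s.1 = 1 := by rw [← Units.val_mul, inv_mul_cancel, Units.val_one]
  have e2 : ∀ k : ℕ, (z.1 - 1) ^ k = s.1 * ((s⁻¹ * (z * s)).1 - 1) ^ k * s⁻¹.1 := by
    intro k
    induction k with
    | zero => rw [pow_zero, pow_zero, mul_one, hs]
    | succ k ih =>
      have e3 : z.1 - 1 = s.1 * ((s⁻¹ * (z * s)).1 - 1) * s⁻¹.1 := by
        rw [mul_sub, sub_mul, mul_one, hs, Units.val_mul, Units.val_mul, ← mul_assoc, hs, one_mul,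
          mul_assoc, hs, mul_one]
      rw [pow_succ, ih]
      rw [e3]
      rw [pow_succ]
      calc s.1 * ((s⁻¹ * (z * s)).1 - 1) ^ k * s⁻¹.1 *
            (s.1 * ((s⁻¹ * (z * s)).1 - 1) * s⁻¹.1)
          = s.1 * ((s⁻¹ * (z * s)).1 - 1) ^ k * (s⁻¹.1 * s.1) *
            ((s⁻¹ * (z * s)).1 - 1) * s⁻¹.1 := by simp only [mul_assoc]
        _ = _ := by rw [hs', mul_one]; simp only [mul_assoc]
  have h1 : V.MO (a + 0 + b) ((z.1 - 1) ^ j) := by
    rw [e2]
    exact V.MO_mul (V.MO_mul ha (V.MO_pow (V.MO_sub h V.MO_one) j)) hb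
  obtain ⟨l, rfl⟩ := Nat.exists_eq_succ_of_ne_zero hj0.ne'
  ext i k
  exact hj _ (pow_memJ hJ.1 hz l i k) (h1 i k)

/-- unipotent elements in the stabilizer of a vertex -/
theorem unipS {J : ℕ → AddSubgroup D} (hJ : Small V J) {z : (Matrix (Fin 2) (Fin 2) D)ˣ}
    (hz : ∀ i k, (z.1 - 1) i k ∈ J 1) (hz' : ∀ i k, (z⁻¹.1 - 1) i k ∈ J 1) {v : V.Vx}
    (hv : z • v = v) : ∃ n : ℕ, (z.1 - 1) ^ n = 0 := by
  obtain ⟨s, rfl⟩ := QuotientGroup.mk_surjective v
  have h1 : V.cl s = V.cl (z * s) := hv.symm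
  rw [V.cl_eq] at h1
  obtain ⟨n, h2, h3⟩ := h1
  rcases le_or_gt 0 n with hn | hn
  · exact unipS_aux hJ hz s (V.MO_mono hn h2)
  · have e1 : (s⁻¹ * (z * s))⁻¹ = s⁻¹ * (z⁻¹ * s) := by
      rw [mul_inv_rev, mul_inv_rev, inv_inv, mul_assoc]
    rw [e1] at h3
    obtain ⟨J, hJ⟩ := unipS_aux hJ hz' s (V.MO_mono (by omega) h3)
    have h4 := sq_zero hJ
    refine ⟨2, ?_⟩
    set A := z.1 with hA
    set B := z⁻¹.1 with hB
    have hAB : A * B = 1 := by
      rw [hA, hB, ← Units.val_mul, mul_inv_cancel, Units.val_one]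
    have hBA : B * A = 1 := by
      rw [hA, hB, ← Units.val_mul, inv_mul_cancel, Units.val_one]
    have h5 : A - 1 = -(A * (B - 1)) := by
      rw [mul_sub, hAB, mul_one, neg_sub]
    have h6 : A - 1 = -((B - 1) * A) := by
      rw [sub_mul, hBA, one_mul, neg_sub]
    rw [pow_two]
    nth_rw 1 [h5]
    rw [h6, neg_mul_neg]
    calc A * (B - 1) * ((B - 1) * A) = A * ((B - 1) * (B - 1)) * A := by simp only [mul_assoc]
      _ = 0 := by rw [h4, mul_zero, zero_mul]

/-- the unipotent elements in a stabilizer commute -/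
theorem commS {J : ℕ → AddSubgroup D} (hJ : Small V J) {x y : (Matrix (Fin 2) (Fin 2) D)ˣ}
    (hx : ∀ i k, (x.1 - 1) i k ∈ J 1) (hx' : ∀ i k, (x⁻¹.1 - 1) i k ∈ J 1)
    (hy : ∀ i k, (y.1 - 1) i k ∈ J 1) (hy' : ∀ i k, (y⁻¹.1 - 1) i k ∈ J 1)
    (hz : ∀ i k, ((x * y).1 - 1) i k ∈ J 1) (hz' : ∀ i k, ((x * y)⁻¹.1 - 1) i k ∈ J 1) {v : V.Vx}
    (hxv : x • v = v) (hyv : y • v = v) : x * y = y * x := by
  have hxyv : (x * y) • v = v := by rw [mul_smul, hyv, hxv]
  obtain ⟨_, hJ1⟩ := unipS hJ hx hx' hxv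
  obtain ⟨_, hK⟩ := unipS hJ hy hy' hyv
  obtain ⟨_, hL⟩ := unipS hJ hz hz' hxyv
  have h1 := sq_zero hL
  have e1 : (x * y).1 - 1 = (x.1 - 1) + (y.1 - 1) + (x.1 - 1) * (y.1 - 1) := by
    rw [Units.val_mul]
    noncomm_ring
  rw [e1] at h1
  obtain ⟨h2, h3⟩ := commute_of_sq hJ1 hK h1
  apply Units.ext
  have e2 : x.1 * y.1 = 1 + (x.1 - 1) + (y.1 - 1) + (x.1 - 1) * (y.1 - 1) := by
    noncomm_ring
  have e3 : y.1 * x.1 = 1 + (x.1 - 1) + (y.1 - 1) + (y.1 - 1) * (x.1 - 1) := by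
    noncomm_ring
  rw [Units.val_mul, Units.val_mul, e2, e3, h2, h3]

/-! ### semilinear automorphisms -/

variable (V) in
/-- the automorphisms of `D` which preserve the valuation -/
def Pres (β : D ≃+* D) : Prop := ∀ d, d ≠ 0 → V.v (β d) = V.v d

theorem Pres.symm {β : D ≃+* D} (h : Pres V β) : Pres V β.symm := by
  intro d hd
  have := h (β.symm d) (by simpa using hd)
  rw [RingEquiv.apply_symm_apply] at this
  exact this.symm

theorem Pres.O {β : D ≃+* D} (h : Pres V β) {n : ℤ} {d : D} (hd : V.O n d) : V.O n (β d) := by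
  rcases eq_or_ne d 0 with rfl | h0
  · rw [map_zero]; exact V.O_zero n
  · right
    rw [h d h0]
    exact hd.resolve_left h0

theorem Pres.H {β : D ≃+* D} (h : Pres V β) {g : (Matrix (Fin 2) (Fin 2) D)ˣ} (hg : g ∈ V.H) :
    gm (β : D →+* D) g ∈ V.H := by
  obtain ⟨n, h1, h2⟩ := hg
  refine ⟨n, fun i k => ?_, fun i k => ?_⟩
  · rw [gm_val]
    exact h.O (h1 i k)
  · rw [← map_inv, gm_val]
    exact h.O (h2 i k)

theorem gm_symm (β : D ≃+* D) (g : (Matrix (Fin 2) (Fin 2) D)ˣ) :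
    gm (β.symm : D →+* D) (gm (β : D →+* D) g) = g := by
  apply Units.ext
  ext i k
  rw [gm_val, gm_val]
  simp

theorem gm_symm' (β : D ≃+* D) (g : (Matrix (Fin 2) (Fin 2) D)ˣ) :
    gm (β : D →+* D) (gm (β.symm : D →+* D) g) = g := by
  apply Units.ext
  ext i k
  rw [gm_val, gm_val]
  simp

/-- the semilinear map on the vertices -/
def sml {β : D ≃+* D} (h : Pres V β) (b : (Matrix (Fin 2) (Fin 2) D)ˣ) : V.Vx → V.Vx :=
  Quotient.map' (fun s => b * gm (β : D →+* D) s) (by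
    intro s s' hs
    rw [QuotientGroup.leftRel_apply] at hs ⊢
    rw [mul_inv_rev, mul_assoc, inv_mul_cancel_left, ← map_inv, ← map_mul]
    exact h.H hs)

theorem sml_cl {β : D ≃+* D} (h : Pres V β) (b s : (Matrix (Fin 2) (Fin 2) D)ˣ) :
    sml h b (V.cl s) = V.cl (b * gm (β : D →+* D) s) := rfl

/-- the semilinear permutation of the vertices -/
def smp {β : D ≃+* D} (h : Pres V β) (b : (Matrix (Fin 2) (Fin 2) D)ˣ) : Equiv.Perm V.Vx where
  toFun := sml h b
  invFun := sml h.symm (gm (β.symm : D →+* D) b⁻¹)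
  left_inv := by
    intro x
    obtain ⟨s, rfl⟩ := QuotientGroup.mk_surjective x
    change sml _ _ (sml _ _ (V.cl s)) = V.cl s
    rw [sml_cl, sml_cl, map_mul, gm_symm, ← mul_assoc, ← map_mul, inv_mul_cancel, map_one, one_mul]
  right_inv := by
    intro x
    obtain ⟨s, rfl⟩ := QuotientGroup.mk_surjective x
    change sml _ _ (sml _ _ (V.cl s)) = V.cl s
    rw [sml_cl, sml_cl, map_mul, gm_symm', gm_symm', mul_inv_cancel_left]

theorem smp_cl {β : D ≃+* D} (h : Pres V β) (b s : (Matrix (Fin 2) (Fin 2) D)ˣ) :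
    smp h b (V.cl s) = V.cl (b * gm (β : D →+* D) s) := rfl

/-- the image of `diag (t, 1)` -/
theorem gm_dl {β : D ≃+* D} (h : Pres V β) : V.dl⁻¹ * gm (β : D →+* D) V.dl ∈ V.H := by
  have hdl : V.dl.1 = !![V.t, 0; 0, 1] := by
    show (V.tau 1 0).1 = _
    rw [V.tau_val, zpow_one]
  have hdli : V.dl⁻¹.1 = !![V.t⁻¹, 0; 0, 1] := by
    show (V.tau 1 0)⁻¹.1 = _
    rw [V.tau_inv_val]
    simp
  have hvt : V.O 1 V.t := Or.inr (by rw [V.v_t])
  have hvti : V.O (-1) V.t⁻¹ := Or.inr (by rw [V.v_inv V.t_ne, V.v_t])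
  have e1 : (gm (β : D →+* D) V.dl).1 = !![β V.t, 0; 0, 1] := by
    ext i k
    rw [gm_val, hdl]
    fin_cases i <;> fin_cases k <;> simp
  have e2 : (gm (β : D →+* D) V.dl)⁻¹.1 = !![β V.t⁻¹, 0; 0, 1] := by
    rw [← map_inv]
    ext i k
    rw [gm_val, hdli]
    fin_cases i <;> fin_cases k <;> simp
  refine ⟨0, ?_, ?_⟩
  · rw [Units.val_mul, hdli, e1, Matrix.mul_fin_two]
    intro i k
    fin_cases i <;> fin_cases k
    · have h3 : V.O 0 (V.t⁻¹ * β V.t) := V.O_mul' hvti (h.O hvt) (by omega)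
      simpa using h3
    · simpa using V.O_zero 0
    · simpa using V.O_zero 0
    · simpa using V.O_one
  · rw [mul_inv_rev, inv_inv, Units.val_mul, hdl, e2, Matrix.mul_fin_two]
    intro i k
    fin_cases i <;> fin_cases k
    · have h3 : V.O (-0) (β V.t⁻¹ * V.t) := V.O_mul' (h.O hvti) hvt (by omega)
      simpa using h3
    · simpa using V.O_zero 0
    · simpa using V.O_zero 0
    · simpa using V.O_one

theorem smp_adj {β : D ≃+* D} (h : Pres V β) (b : (Matrix (Fin 2) (Fin 2) D)ˣ) {x y : V.Vx}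
    (hxy : V.tree.Adj x y) : V.tree.Adj (smp h b x) (smp h b y) := by
  rw [V.adj_iff] at hxy ⊢
  obtain ⟨g, rfl, rfl⟩ := hxy
  refine ⟨b * gm (β : D →+* D) g, rfl, ?_⟩
  rw [smp_cl, map_mul]
  have e : b * (gm (β : D →+* D) g * gm (β : D →+* D) V.dl) =
      b * gm (β : D →+* D) g * V.dl * (V.dl⁻¹ * gm (β : D →+* D) V.dl) := by
    simp only [mul_assoc, mul_inv_cancel_left]
  rw [e]
  exact V.cl_mul_of_mem _ (gm_dl h)

theorem smp_symm_adj {β : D ≃+* D} (h : Pres V β) (b : (Matrix (Fin 2) (Fin 2) D)ˣ) {x y : V.Vx}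
    (hxy : V.tree.Adj x y) : V.tree.Adj ((smp h b)⁻¹ x) ((smp h b)⁻¹ y) :=
  smp_adj h.symm (gm (β.symm : D →+* D) b⁻¹) hxy

variable (V) in
/-- the automorphisms of the tree -/
def adjG : Subgroup (Equiv.Perm V.Vx) where
  carrier := {π | (∀ x y, V.tree.Adj x y → V.tree.Adj (π x) (π y)) ∧
    ∀ x y, V.tree.Adj x y → V.tree.Adj (π⁻¹ x) (π⁻¹ y)}
  mul_mem' := by
    rintro a b ⟨h1, h2⟩ ⟨h3, h4⟩
    refine ⟨fun x y h => h1 _ _ (h3 _ _ h), fun x y h => ?_⟩
    rw [mul_inv_rev]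
    exact h4 _ _ (h2 _ _ h)
  one_mem' := ⟨fun x y h => h, fun x y h => by rw [inv_one]; exact h⟩
  inv_mem' := by
    rintro a ⟨h1, h2⟩
    exact ⟨h2, fun x y h => by rw [inv_inv]; exact h1 _ _ h⟩

end semi

/-- the mapping torus -/
theorem torus (hC : ClosedE C) (hM : ∀ (G : Type) [Group G], derivedSeries G 2 = ⊥ → C G)
    {D : Type} [DivisionRing D] {V : DV D} {J : ℕ → AddSubgroup D} (hJ : Small V J)
    {K : Type} [Group K] (c : MulAut K) (κ : K →* (Matrix (Fin 2) (Fin 2) D)ˣ)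
    (hκ : Function.Injective κ) (hκ1 : ∀ k i l, ((κ k).1 - 1) i l ∈ J 1)
    (b : (Matrix (Fin 2) (Fin 2) D)ˣ) {β : D ≃+* D} (hβ : Pres V β)
    (hc : ∀ k, κ (c k) = b * gm (β : D →+* D) (κ k) * b⁻¹) :
    C (K ⋊[zpowersHom (MulAut K) c] Multiplicative ℤ) := by
  let f1 : K →* Equiv.Perm V.Vx :=
    (MulAction.toPermHom (Matrix (Fin 2) (Fin 2) D)ˣ V.Vx).comp κ
  have f1a : ∀ (k : K) (x : V.Vx), f1 k x = κ k • x := fun _ _ => rfl
  let τ : Equiv.Perm V.Vx := smp hβ b
  have hτ : ∀ k, f1 (c k) = τ * f1 k * τ⁻¹ := by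
    intro k
    rw [eq_mul_inv_iff_mul_eq]
    ext1 x
    obtain ⟨s, rfl⟩ := QuotientGroup.mk_surjective x
    show κ (c k) • smp hβ b (V.cl s) = smp hβ b (κ k • V.cl s)
    rw [smp_cl, V.smul_cl, V.smul_cl, smp_cl, hc, map_mul]
    congr 1
    simp only [mul_assoc, inv_mul_cancel_left]
  have hpow : ∀ (n : ℤ) (k : K), f1 ((c ^ n) k) = τ ^ n * f1 k * (τ ^ n)⁻¹ := by
    intro n
    induction n using Int.induction_on with
    | zero => intro k; simp
    | succ n ih =>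
      intro k
      rw [zpow_add_one, MulAut.mul_apply, ih, hτ, zpow_add_one]
      simp only [mul_inv_rev, mul_assoc]
    | pred n ih =>
      intro k
      have h1 : f1 ((c ^ (-(n : ℤ) - 1)) k) = τ ^ (-(n : ℤ)) * f1 (c⁻¹ k) * (τ ^ (-(n : ℤ)))⁻¹ := by
        rw [← ih, zpow_sub_one, MulAut.mul_apply]
      have h2 : f1 k = τ * f1 (c⁻¹ k) * τ⁻¹ := by
        rw [← hτ, MulAut.apply_inv_self]
      rw [h1, h2, zpow_sub_one]
      simp only [mul_inv_rev, mul_assoc, inv_mul_cancel_left, inv_inv]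
  let φ : Multiplicative ℤ →* MulAut K := zpowersHom (MulAut K) c
  let f2 : Multiplicative ℤ →* Equiv.Perm V.Vx := zpowersHom _ τ
  let F : K ⋊[φ] Multiplicative ℤ →* Equiv.Perm V.Vx :=
    SemidirectProduct.lift f1 f2 (by
      intro n
      ext1 k
      exact hpow n.toAdd k)
  let _ : MulAction (K ⋊[φ] Multiplicative ℤ) V.Vx := MulAction.compHom V.Vx F
  have hsm : ∀ (p : K ⋊[φ] Multiplicative ℤ) (x : V.Vx), p • x = F p x := fun _ _ => rfl
  -- the action is by automorphisms of the tree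
  have hadj : ∀ p, F p ∈ adjG V := by
    intro p
    have h1 : F p = f1 p.left * f2 p.right := rfl
    rw [h1]
    refine mul_mem ?_ ?_
    · refine ⟨fun x y h => V.adj_smul _ _ _ h, fun x y h => ?_⟩
      rw [← map_inv]
      exact V.adj_smul _ _ _ h
    · have h2 : f2 p.right = τ ^ p.right.toAdd := rfl
      rw [h2]
      exact zpow_mem (show τ ∈ adjG V from
        ⟨fun x y h => smp_adj hβ b h, fun x y h => smp_symm_adj hβ b h⟩) _
  let N : Subgroup (K ⋊[φ] Multiplicative ℤ) :=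
    (SemidirectProduct.rightHom : K ⋊[φ] Multiplicative ℤ →* Multiplicative ℤ).ker
  have hQ : C ((K ⋊[φ] Multiplicative ℤ) ⧸ N) :=
    hC.base.of_injective _ _ (QuotientGroup.kerLift _) (QuotientGroup.kerLift_injective _)
      hC.base.int
  refine treeT hC hM V.tree_isTree (fun p x y h => ?_) N hQ ?_
  · rw [hsm, hsm]
    exact (hadj p).1 _ _ h
  · intro v x y hx hy hxv hyv
    have hx1 : x.right = 1 := hx
    have hy1 : y.right = 1 := hy
    have ex : x = SemidirectProduct.inl x.left := SemidirectProduct.ext rfl hx1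
    have ey : y = SemidirectProduct.inl y.left := SemidirectProduct.ext rfl hy1
    have hxv' : κ x.left • v = v := by
      rw [ex, hsm, SemidirectProduct.lift_inl] at hxv
      exact hxv
    have hyv' : κ y.left • v = v := by
      rw [ey, hsm, SemidirectProduct.lift_inl] at hyv
      exact hyv
    have key := commS hJ (x := κ x.left) (y := κ y.left) (hκ1 _) (by rw [← map_inv]; exact hκ1 _)
      (hκ1 _) (by rw [← map_inv]; exact hκ1 _) (by rw [← map_mul]; exact hκ1 _)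
      (by rw [← map_mul, ← map_inv]; exact hκ1 _) hxv' hyv'
    rw [← map_mul, ← map_mul] at key
    rw [ex, ey, ← map_mul, ← map_mul, hκ key]

/-- **extensions with kernels in the groups of invertible two by two matrices** -/
theorem critS (hC : ClosedE C) (hM : ∀ (G : Type) [Group G], derivedSeries G 2 = ⊥ → C G)
    {G : Type} [Group G] (K : Subgroup G) [K.Normal] (hQ : C (G ⧸ K))
    (h : ∀ g : G, ∃ (D : Type) (_ : DivisionRing D) (V : DV D) (J : ℕ → AddSubgroup D)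
      (κ : K →* (Matrix (Fin 2) (Fin 2) D)ˣ) (b : (Matrix (Fin 2) (Fin 2) D)ˣ) (β : D ≃+* D),
      Small V J ∧ Function.Injective κ ∧ (∀ k i l, ((κ k).1 - 1) i l ∈ J 1) ∧ Pres V β ∧
      ∀ k : K, κ (MulAut.conjNormal g k) = b * gm (β : D →+* D) (κ k) * b⁻¹) : C G := by
  have key : ∀ g : G,
      C (K ⋊[zpowersHom (MulAut K) (MulAut.conjNormal g)] Multiplicative ℤ) := by
    intro g
    obtain ⟨D, _, V, J, κ, b, β, hJ, hκ, hκ1, hβ, hc⟩ := h g
    exact torus hC hM hJ (MulAut.conjNormal g) κ hκ hκ1 b hβ hc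
  refine Pool.Agent.Y529.FJ.t_ext C hC G K ?_ hQ fun g hg => ?_
  · exact hC.base.of_injective _ _ SemidirectProduct.inl SemidirectProduct.inl_injective (key 1)
  · let φ : Multiplicative ℤ →* MulAut K := zpowersHom (MulAut K) (MulAut.conjNormal g)
    let F : K ⋊[φ] Multiplicative ℤ →* G := SemidirectProduct.lift K.subtype (zpowersHom G g) (by
      intro n
      ext1 k
      have h1 : φ n = MulAut.conjNormal (g ^ n.toAdd) := by
        show (MulAut.conjNormal g : MulAut K) ^ n.toAdd = _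
        rw [map_zpow]
      show ((φ n k : K) : G) = g ^ n.toAdd * k * (g ^ n.toAdd)⁻¹
      rw [h1, MulAut.conjNormal_apply])
    have hF : Function.Injective F := by
      rw [injective_iff_map_eq_one]
      intro p hp
      have h1 : (p.left : G) * g ^ p.right.toAdd = 1 := hp
      have h2 : g ^ p.right.toAdd ∈ K := by
        have : g ^ p.right.toAdd = (p.left : G)⁻¹ := (inv_eq_of_mul_eq_one_right h1).symm
        rw [this]
        exact inv_mem p.left.2
      have h3 : p.right.toAdd = 0 := by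
        by_contra h4
        rcases lt_or_gt_of_ne h4 with h5 | h5
        · have h6 : g ^ (-(p.right.toAdd)) ∈ K := by rw [zpow_neg]; exact inv_mem h2
          refine hg (-(p.right.toAdd)).toNat (by omega) ?_
          rw [← zpow_natCast, Int.toNat_of_nonneg (by omega)]
          exact h6
        · refine hg (p.right.toAdd).toNat (by omega) ?_
          rw [← zpow_natCast, Int.toNat_of_nonneg (by omega)]
          exact h2
      rw [h3, zpow_zero, mul_one] at h1
      exact SemidirectProduct.ext (Subtype.ext h1) h3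
    have h2 : C F.range :=
      hC.base.of_injective _ _ (MonoidHom.ofInjective hF).symm.toMonoidHom (MulEquiv.injective _)
        (key g)
    refine Pool.Agent.R941.FJ.C_le hC.base ?_ h2
    refine sup_le ?_ ?_
    · intro x hx
      exact ⟨SemidirectProduct.inl ⟨x, hx⟩, by
        show (SemidirectProduct.lift _ _ _) (SemidirectProduct.inl _) = x
        rw [SemidirectProduct.lift_inl]
        rfl⟩
    · rw [Subgroup.zpowers_le]
      exact ⟨SemidirectProduct.inr (Multiplicative.ofAdd 1), by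
        show (SemidirectProduct.lift _ _ _) (SemidirectProduct.inr _) = g
        rw [SemidirectProduct.lift_inr]
        show g ^ (1 : ℤ) = g
        rw [zpow_one]⟩

end Pool.Agent.L7h61.FJ
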