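import Pool.Agent.L7h61.FJ.Cor

/-!
# The statements about invertible two by two matrices
-/

set_option autoImplicit false

namespace Pool.Agent.L7h61.FJ

/-- the group of invertible two by two matrices over a ring, not necessarily commutative -/
abbrev GL2 (R : Type) [Ring R] : Type := (Matrix (Fin 2) (Fin 2) R)ˣ

/-- The conjugation by `g` on the normal subgroup `K` is induced by a semilinear map for some embedding
`κ` of `K` in `GL2 D`, where `D` is a division ring with a discrete valuation `V`, and the entries of the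
matrices `κ k - 1` lie in the first term of a filtration `J` which satisfies `Small V J`. -/
def SemilinearOn {G : Type} [Group G] (K : Subgroup G) [K.Normal] (g : G) : Prop :=
  ∃ (D : Type) (_ : DivisionRing D) (V : DV D) (J : ℕ → AddSubgroup D) (κ : K →* GL2 D)
    (b : GL2 D) (β : D ≃+* D), Small V J ∧ Function.Injective κ ∧
    (∀ k i l, ((κ k).1 - 1) i l ∈ J 1) ∧ (∀ d, d ≠ 0 → V.v (β d) = V.v d) ∧
    ∀ k : K, κ (MulAut.conjNormal g k) = b * gm (β : D →+* D) (κ k) * b⁻¹

/-- extensions with a kernel of two by two matrices -/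
def ExtensionStatement (C : ∀ (G : Type) [Group G], Prop) : Prop :=
  ∀ (G : Type) [Group G] (K : Subgroup G) [K.Normal], C (G ⧸ K) → (∀ g : G, SemilinearOn K g) → C G

/-- `Γ` acts on the graded ring `A ⊆ E` by graded automorphisms `a γ` which extend to `E`, and
`ε : A → S` is equivariant with kernel in positive degrees -/
structure GradedAction {A S E Γ ς : Type} [Ring A] [Ring S] [DivisionRing E] [Group Γ] [SetLike ς A]
    [AddSubgroupClass ς A] (𝒜 : ℕ → ς) [GradedRing 𝒜] (j : A →+* E) (ε : A →+* S)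
    (a : Γ →* RingAut A) (s : Γ →* RingAut S) : Prop where
  inj : Function.Injective j
  ker : ∀ x, ε x = 0 → (DirectSum.decompose 𝒜 x 0 : A) = 0
  graded : ∀ γ n, ∀ x ∈ 𝒜 n, a γ x ∈ 𝒜 n
  extend : ∀ γ, ∃ θ : E ≃+* E, ∀ x, θ (j x) = j (a γ x)
  equiv : ∀ γ x, ε (a γ x) = s γ (ε x)

/-- graded rings in division rings and groups of graded automorphisms -/
def GradedStatement (C : ∀ (G : Type) [Group G], Prop) : Prop :=
  ∀ (A S E Γ ς : Type) [Ring A] [Ring S] [DivisionRing E] [Group Γ] [SetLike ς A]
    [AddSubgroupClass ς A] (𝒜 : ℕ → ς) [GradedRing 𝒜] (j : A →+* E) (ε : A →+* S)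
    (a : Γ →* RingAut A) (s : Γ →* RingAut S), GradedAction 𝒜 j ε a s →
    C (GL2 S ⋊[(glAut S).comp s] Γ) → C (GL2 A ⋊[(glAut A).comp a] Γ)

/-- all commutative graded rings -/
def CommutativeStatement (C : ∀ (G : Type) [Group G], Prop) : Prop :=
  ∀ (A ς : Type) [CommRing A] [SetLike ς A] [AddSubgroupClass ς A] (𝒜 : ℕ → ς) [GradedRing 𝒜],
    (C (GL2 A) ↔ C (GL2 (𝒜 0))) ∧
    ((∀ s : Finset (𝒜 0), Finite (Subring.closure (s : Set (𝒜 0)))) → C (GL2 A))

/-- polynomial rings -/
def PolynomialStatement (C : ∀ (G : Type) [Group G], Prop) : Prop :=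
  ∀ (B σ : Type) [CommRing B], C (GL2 (MvPolynomial σ B)) ↔ C (GL2 B)

/-- The quotient of the `k`-algebra `A` by `p` has one place at infinity: it embeds in a division ring
with a discrete valuation `V` such that for each `m` the elements of value at least `m` lie in a
subspace of finite dimension. -/
def OnePlace (k A : Type) [Field k] [CommRing A] [Algebra k A] (p : Ideal A) : Prop :=
  ∃ (D : Type) (_ : DivisionRing D) (V : DV D) (ι : A →+* D), RingHom.ker ι = p ∧
    ∀ m : ℤ, ∃ W : Submodule k A, FiniteDimensional k W ∧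
      ∀ x, V.O m (ι x) → ∃ w ∈ W, x - w ∈ p

/-- noetherian algebras with one place at infinity on each component -/
def OnePlaceStatement (C : ∀ (G : Type) [Group G], Prop) : Prop :=
  ∀ (k A : Type) [Field k] [CommRing A] [Algebra k A] [IsNoetherianRing A] (I : Ideal A),
    (∀ p ∈ minimalPrimes A, I ⊔ p ≠ ⊤ ∧ OnePlace k A p) → C (GL2 (A ⧸ I)) → C (GL2 A)

end Pool.Agent.L7h61.FJ
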