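import Pool.Agent.L7h61.FJ.Thm
import Pool.Agent.L7h61.FJ.Resid

/-!
# More statements about invertible two by two matrices
-/

set_option autoImplicit false

namespace Pool.Agent.L7h61.FJ

/-- the residual criterion: for each `m` the elements of `G` whose images in `GL2 D` have entries of value
at least `m` are detected by a homomorphism to a group in `C` -/
def ResidualStatement (C : ∀ (G : Type) [Group G], Prop) : Prop :=
  ∀ (G D : Type) [Group G] [DivisionRing D] (V : DV D) (ρ : G →* GL2 D),
    (∀ m : ℤ, ∃ (P : Type) (_ : Group P) (f : G →* P), C P ∧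
      ∀ g, f g = 1 → (∀ i k, V.O m ((ρ g).1 i k)) → g = 1) → C G

/-- subrings of noetherian algebras with one place at infinity on each component -/
def OnePlaceSubringStatement (C : ∀ (G : Type) [Group G], Prop) : Prop :=
  ∀ (k A R : Type) [Field k] [CommRing A] [Algebra k A] [IsNoetherianRing A] [CommRing R]
    (f : R →+* A) (I : Ideal A), Function.Injective f →
    (∀ p ∈ minimalPrimes A, I ⊔ p ≠ ⊤ ∧ OnePlace k A p) → C (GL2 (R ⧸ I.comap f)) → C (GL2 R)

end Pool.Agent.L7h61.FJ
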