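import Pool.Agent.L7h61.FJ.Val
import Pool.Agent.L7h61.FJ.Par

/-!
# The tree of a discrete valuation on a division ring
-/

set_option autoImplicit false

namespace Pool.Agent.L7h61.FJ

namespace DV

variable {D : Type} [DivisionRing D] (V : DV D)

/-- the vertices: the classes of lattices in `D ^ 2` -/
abbrev Vx : Type := (Matrix (Fin 2) (Fin 2) D)ˣ ⧸ V.H

/-- the class of a matrix -/
def cl (g : (Matrix (Fin 2) (Fin 2) D)ˣ) : V.Vx := QuotientGroup.mk g

theorem cl_eq {g g' : (Matrix (Fin 2) (Fin 2) D)ˣ} : V.cl g = V.cl g' ↔ g⁻¹ * g' ∈ V.H :=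
  QuotientGroup.eq

theorem smul_cl (g g' : (Matrix (Fin 2) (Fin 2) D)ˣ) : g • V.cl g' = V.cl (g * g') := rfl

theorem cl_mul_of_mem (g : (Matrix (Fin 2) (Fin 2) D)ˣ) {h : (Matrix (Fin 2) (Fin 2) D)ˣ}
    (hh : h ∈ V.H) : V.cl (g * h) = V.cl g := by
  rw [eq_comm, cl_eq]
  rwa [inv_mul_cancel_left]

/-- the classes of two balls -/
theorem cl_tau_eq {n m : ℤ} {b c : D} :
    V.cl (V.tau n b) = V.cl (V.tau m c) ↔ n = m ∧ V.O n (c - b) := by
  rw [cl_eq, tau_inv, tau_mul, tau_mem_H]
  have h1 : V.t ^ (-n) * c + -(V.t ^ (-n) * b) = V.t ^ (-n) * (c - b) := by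
    rw [mul_sub, sub_eq_add_neg]
  rw [h1, V.O_tz_mul]
  constructor
  · rintro ⟨h2, h3⟩
    exact ⟨by omega, by simpa using h3⟩
  · rintro ⟨h2, h3⟩
    exact ⟨by omega, by simpa using h3⟩

/-- the exchange of the coordinates -/
def sw : (Matrix (Fin 2) (Fin 2) D)ˣ where
  val := !![0, 1; 1, 0]
  inv := !![0, 1; 1, 0]
  val_inv := by
    rw [Matrix.mul_fin_two, Matrix.one_fin_two]
    simp
  inv_val := by
    rw [Matrix.mul_fin_two, Matrix.one_fin_two]
    simp

theorem sw_mem : (sw : (Matrix (Fin 2) (Fin 2) D)ˣ) ∈ V.H := by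
  refine ⟨0, ?_, ?_⟩
  · intro i j
    show V.O 0 ((!![0, 1; 1, 0] : Matrix (Fin 2) (Fin 2) D) i j)
    fin_cases i <;> fin_cases j
    · simpa using V.O_zero 0
    · simpa using V.O_one
    · simpa using V.O_one
    · simpa using V.O_zero 0
  · intro i j
    show V.O (-0) ((!![0, 1; 1, 0] : Matrix (Fin 2) (Fin 2) D) i j)
    fin_cases i <;> fin_cases j
    · simpa using V.O_zero 0
    · simpa using V.O_one
    · simpa using V.O_one
    · simpa using V.O_zero 0

/-- the Iwasawa decomposition, if the last row has its smaller value at the end -/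
theorem iwasawa_aux (g : (Matrix (Fin 2) (Fin 2) D)ˣ) (hd : g.1 1 1 ≠ 0)
    (hc : V.O (V.v (g.1 1 1)) (g.1 1 0)) :
    ∃ (n : ℤ) (b : D), V.cl g = V.cl (V.tau n b) := by
  set a := g.1 0 0 with ha
  set b := g.1 0 1 with hb
  set c := g.1 1 0 with hc'
  set d := g.1 1 1 with hd'
  have hg : g.1 = !![a, b; c, d] := by
    ext i j
    fin_cases i <;> fin_cases j <;> rfl
  set s := a - b * d⁻¹ * c with hs
  -- `s` is not zero
  have hs0 : s ≠ 0 := by
    intro h0
    have h1 : !![(1 : D), -(b * d⁻¹); 0, 0] * g.1 = 0 := by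
      rw [hg, Matrix.mul_fin_two]
      have e1 : 1 * a + -(b * d⁻¹) * c = 0 := by
        rw [one_mul, neg_mul, ← sub_eq_add_neg]
        exact h0
      have e2 : 1 * b + -(b * d⁻¹) * d = 0 := by
        rw [one_mul, neg_mul, mul_assoc, inv_mul_cancel₀ hd, mul_one, add_neg_cancel]
      rw [e1, e2]
      ext i j
      fin_cases i <;> fin_cases j <;> simp
    have h2 : !![(1 : D), -(b * d⁻¹); 0, 0] = 0 := by
      have h3 := congrArg (fun M => M * g⁻¹.1) h1
      simp only [zero_mul, mul_assoc] at h3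
      rwa [← Units.val_mul, mul_inv_cancel, Units.val_one, mul_one] at h3
    have h4 := congrFun (congrFun h2 0) 0
    simp at h4
  refine ⟨V.v s - V.v d, b * d⁻¹, ?_⟩
  set n := V.v s - V.v d with hn
  rw [eq_comm, cl_eq]
  -- the matrix `tau⁻¹ * g`
  have e1 : ((V.tau n (b * d⁻¹))⁻¹ * g).1 = !![V.t ^ (-n) * s, 0; c, d] := by
    rw [Units.val_mul, tau_inv_val, hg, Matrix.mul_fin_two]
    have e2 : V.t ^ (-n) * a + -(V.t ^ (-n) * (b * d⁻¹)) * c = V.t ^ (-n) * s := by
      rw [hs, mul_sub, neg_mul, ← sub_eq_add_neg]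
      simp only [mul_assoc]
    have e3 : V.t ^ (-n) * b + -(V.t ^ (-n) * (b * d⁻¹)) * d = 0 := by
      rw [neg_mul, mul_assoc, mul_assoc, inv_mul_cancel₀ hd, mul_one, add_neg_cancel]
    rw [e2, e3]
    simp
  have hx0 : V.t ^ (-n) * s ≠ 0 := mul_ne_zero (V.tz_ne _) hs0
  have hvx : V.v (V.t ^ (-n) * s) = V.v d := by
    rw [V.map_mul _ _ (V.tz_ne _) hs0, V.v_zpow]
    omega
  set x := V.t ^ (-n) * s with hx
  have e4 : ((V.tau n (b * d⁻¹))⁻¹ * g)⁻¹.1 = !![x⁻¹, 0; -(d⁻¹ * c * x⁻¹), d⁻¹] := by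
    have h5 : ((V.tau n (b * d⁻¹))⁻¹ * g).1 * !![x⁻¹, 0; -(d⁻¹ * c * x⁻¹), d⁻¹] = 1 := by
      rw [e1, Matrix.mul_fin_two, Matrix.one_fin_two]
      simp only [mul_zero, add_zero, zero_add, mul_inv_cancel₀ hx0, mul_inv_cancel₀ hd, zero_mul]
      have : c * x⁻¹ + d * -(d⁻¹ * c * x⁻¹) = 0 := by
        rw [mul_neg, mul_assoc, ← mul_assoc d, mul_inv_cancel₀ hd, one_mul, add_neg_cancel]
      rw [this]
    have h6 := congrArg (fun M => ((V.tau n (b * d⁻¹))⁻¹ * g)⁻¹.1 * M) h5
    simp only [mul_one, ← mul_assoc] at h6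
    rw [← Units.val_mul, inv_mul_cancel, Units.val_one, one_mul] at h6
    exact h6.symm
  refine ⟨V.v d, ?_, ?_⟩
  · intro i j
    rw [e1]
    fin_cases i <;> fin_cases j
    · have h9 : V.O (V.v d) x := Or.inr (le_of_eq hvx.symm)
      simpa using h9
    · simpa using V.O_zero _
    · simpa using hc
    · simpa using V.O_v d
  · intro i j
    rw [e4]
    have hxi : V.O (-V.v d) x⁻¹ := by
      have := V.O_inv hx0
      rwa [hvx] at this
    fin_cases i <;> fin_cases j
    · simpa using hxi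
    · simpa using V.O_zero _
    · have h7 : V.O (-V.v d) (d⁻¹ * c * x⁻¹) :=
        V.O_mul' (V.O_mul (V.O_inv hd) hc) hxi (by omega)
      simpa using V.O_neg h7
    · simpa using V.O_inv hd

/-- the Iwasawa decomposition -/
theorem iwasawa (g : (Matrix (Fin 2) (Fin 2) D)ˣ) :
    ∃ (n : ℤ) (b : D), V.cl g = V.cl (V.tau n b) := by
  by_cases h : g.1 1 1 ≠ 0 ∧ V.O (V.v (g.1 1 1)) (g.1 1 0)
  · exact V.iwasawa_aux g h.1 h.2
  · have h1 : V.cl g = V.cl (g * sw) := (V.cl_mul_of_mem g V.sw_mem).symm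
    rw [h1]
    have e0 : (g * sw).1 1 1 = g.1 1 0 := by
      rw [Units.val_mul, Matrix.mul_apply, Fin.sum_univ_two]
      show g.1 1 0 * (!![0, 1; 1, 0] : Matrix (Fin 2) (Fin 2) D) 0 1 +
        g.1 1 1 * (!![0, 1; 1, 0] : Matrix (Fin 2) (Fin 2) D) 1 1 = _
      simp
    have e1 : (g * sw).1 1 0 = g.1 1 1 := by
      rw [Units.val_mul, Matrix.mul_apply, Fin.sum_univ_two]
      show g.1 1 0 * (!![0, 1; 1, 0] : Matrix (Fin 2) (Fin 2) D) 0 0 +
        g.1 1 1 * (!![0, 1; 1, 0] : Matrix (Fin 2) (Fin 2) D) 1 0 = _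
      simp
    have hrow : g.1 1 0 ≠ 0 ∨ g.1 1 1 ≠ 0 := by
      by_contra h0
      push Not at h0
      have h2 : (g.1 * g⁻¹.1) 1 1 = 1 := by
        rw [← Units.val_mul, mul_inv_cancel]
        simp
      rw [Matrix.mul_apply, Fin.sum_univ_two, h0.1, h0.2] at h2
      simp at h2
    apply V.iwasawa_aux
    · rw [e0]
      intro h0
      rcases hrow with h2 | h2
      · exact h2 h0
      · exact h ⟨h2, Or.inl h0⟩
    · rw [e0, e1]
      by_cases h2 : g.1 1 1 = 0
      · exact Or.inl h2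
      · refine Or.inr ?_
        by_contra h3
        push Not at h3
        exact h ⟨h2, Or.inr h3.le⟩

/-! ### the parent map -/

theorem exists_rep (x : V.Vx) : ∃ q : ℤ × D, x = V.cl (V.tau q.1 q.2) := by
  obtain ⟨g, rfl⟩ := QuotientGroup.mk_surjective x
  obtain ⟨n, b, h⟩ := V.iwasawa g
  exact ⟨(n, b), h⟩

/-- a representative -/
noncomputable def rep (x : V.Vx) : ℤ × D := (V.exists_rep x).choose

theorem rep_spec (x : V.Vx) : x = V.cl (V.tau (V.rep x).1 (V.rep x).2) :=
  (V.exists_rep x).choose_spec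

/-- the height -/
noncomputable def ht (x : V.Vx) : ℤ := (V.rep x).1

/-- the parent -/
noncomputable def par (x : V.Vx) : V.Vx := V.cl (V.tau ((V.rep x).1 - 1) (V.rep x).2)

theorem ht_tau (n : ℤ) (b : D) : V.ht (V.cl (V.tau n b)) = n :=
  (V.cl_tau_eq.1 (V.rep_spec (V.cl (V.tau n b)))).1.symm

theorem par_tau (n : ℤ) (b : D) : V.par (V.cl (V.tau n b)) = V.cl (V.tau (n - 1) b) := by
  have h1 := V.cl_tau_eq.1 (V.rep_spec (V.cl (V.tau n b)))
  unfold par
  rw [eq_comm, cl_tau_eq]
  exact ⟨congrArg (fun z => z - 1) h1.1, V.O_mono (by omega) h1.2⟩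

theorem ht_par (x : V.Vx) : V.ht (V.par x) = V.ht x - 1 := by
  unfold par
  rw [ht_tau]
  rfl

theorem par_iter (n : ℤ) (b : D) (k : ℕ) :
    V.par^[k] (V.cl (V.tau n b)) = V.cl (V.tau (n - k) b) := by
  induction k with
  | zero => simp
  | succ k ih =>
    rw [Function.iterate_succ_apply', ih, par_tau]
    congr 2
    push_cast
    ring

theorem common (x y : V.Vx) : ∃ m n : ℕ, V.par^[m] x = V.par^[n] y := by
  rw [V.rep_spec x, V.rep_spec y]
  set n := (V.rep x).1
  set b := (V.rep x).2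
  set m := (V.rep y).1
  set c := (V.rep y).2
  set k := min (min n m) (V.v (c - b)) with hk
  refine ⟨(n - k).toNat, (m - k).toNat, ?_⟩
  rw [par_iter, par_iter, cl_tau_eq]
  have h1 : k ≤ n := (min_le_left _ _).trans (min_le_left _ _)
  have h2 : k ≤ m := (min_le_left _ _).trans (min_le_right _ _)
  have h3 : k ≤ V.v (c - b) := min_le_right _ _
  rw [Int.toNat_of_nonneg (by omega), Int.toNat_of_nonneg (by omega)]
  refine ⟨by omega, Or.inr ?_⟩
  omega

/-- the tree -/
noncomputable def tree : SimpleGraph V.Vx := parG V.par V.ht V.ht_par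

theorem tree_isTree : V.tree.IsTree := by
  have : Nonempty V.Vx := ⟨V.cl 1⟩
  exact parG_isTree V.ht_par V.common

/-! ### the invariance of the adjacency -/

/-- the neighbours of the standard vertex -/
theorem neighbour {h : (Matrix (Fin 2) (Fin 2) D)ˣ} (hh : h ∈ V.H) :
    (∃ c : D, V.O 0 c ∧ V.cl (h * V.dl) = V.cl (V.tau 1 c)) ∨
      V.cl (h * V.dl) = V.cl (V.tau (-1) 0) := by
  obtain ⟨n, h1, h2⟩ := hh
  have hdl : V.dl.1 = !![V.t, 0; 0, 1] := by
    show (V.tau 1 0).1 = _
    rw [tau_val, zpow_one]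
  have hdli : V.dl⁻¹.1 = !![V.t⁻¹, 0; 0, 1] := by
    show (V.tau 1 0)⁻¹.1 = _
    rw [tau_inv_val]
    simp
  have hvt : V.O 1 V.t := Or.inr (by rw [V.v_t])
  have hvti : V.O (-1) V.t⁻¹ := Or.inr (by rw [V.v_inv V.t_ne, V.v_t])
  set a := h.1 0 0
  set b := h.1 0 1
  set c := h.1 1 0
  set d := h.1 1 1
  have hg : h.1 = !![a, b; c, d] := by
    ext i j
    fin_cases i <;> fin_cases j <;> rfl
  set a' := h⁻¹.1 0 0
  set b' := h⁻¹.1 0 1
  set c' := h⁻¹.1 1 0
  set d' := h⁻¹.1 1 1
  have hg' : h⁻¹.1 = !![a', b'; c', d'] := by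
    ext i j
    fin_cases i <;> fin_cases j <;> rfl
  have hmul : h⁻¹.1 * h.1 = 1 := by rw [← Units.val_mul, inv_mul_cancel, Units.val_one]
  rw [hg, hg', Matrix.mul_fin_two, Matrix.one_fin_two] at hmul
  have m01 : a' * b + b' * d = 0 := by
    have := congrFun (congrFun hmul 0) 1
    simpa using this
  have m11 : c' * b + d' * d = 1 := by
    have := congrFun (congrFun hmul 1) 1
    simpa using this
  have hda : V.O n a := h1 0 0
  have hdb : V.O n b := h1 0 1
  have hdc : V.O n c := h1 1 0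
  have hdd : V.O n d := h1 1 1
  have hda' : V.O (-n) a' := h2 0 0
  have hdb' : V.O (-n) b' := h2 0 1
  have hdc' : V.O (-n) c' := h2 1 0
  have hdd' : V.O (-n) d' := h2 1 1
  have hi : (h * V.dl)⁻¹.1 = !![V.t⁻¹ * a', V.t⁻¹ * b'; c', d'] := by
    rw [mul_inv_rev, Units.val_mul, hdli, hg', Matrix.mul_fin_two]
    simp
  have hm : (h * V.dl).1 = !![a * V.t, b; c * V.t, d] := by
    rw [Units.val_mul, hdl, hg, Matrix.mul_fin_two]
    simp
  by_cases hd : d ≠ 0 ∧ V.v d ≤ n
  · -- `d` has the smallest value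
    left
    have hvd : V.v d = n := le_antisymm hd.2 (hdd.resolve_left hd.1)
    have hdi : V.O (-n) d⁻¹ := by
      have := V.O_inv hd.1
      rwa [hvd] at this
    refine ⟨b * d⁻¹, V.O_mul' hdb hdi (by omega), ?_⟩
    rw [eq_comm, cl_eq]
    refine ⟨n, ?_, ?_⟩
    · rw [Units.val_mul, tau_inv_val, hm, Matrix.mul_fin_two]
      intro i j
      fin_cases i <;> fin_cases j
      · have e : V.t ^ (-1 : ℤ) * (a * V.t) + -(V.t ^ (-1 : ℤ) * (b * d⁻¹)) * (c * V.t) =
            V.t ^ (-1 : ℤ) * ((a - b * d⁻¹ * c) * V.t) := by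
          rw [sub_mul, mul_sub, neg_mul, ← sub_eq_add_neg]
          simp only [mul_assoc]
        have h3 : V.O n (V.t ^ (-1 : ℤ) * ((a - b * d⁻¹ * c) * V.t)) := by
          rw [V.O_tz_mul]
          refine V.O_mul' (V.O_sub hda (V.O_mul' (V.O_mul hdb hdi) hdc ?_)) hvt ?_
          · omega
          · omega
        rw [← e] at h3
        simpa using h3
      · have e : V.t ^ (-1 : ℤ) * b + -(V.t ^ (-1 : ℤ) * (b * d⁻¹)) * d = 0 := by
          rw [neg_mul, mul_assoc, mul_assoc, inv_mul_cancel₀ hd.1, mul_one, add_neg_cancel]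
        have h3 : V.O n (V.t ^ (-1 : ℤ) * b + -(V.t ^ (-1 : ℤ) * (b * d⁻¹)) * d) := by
          rw [e]
          exact V.O_zero _
        simpa using h3
      · have h3 : V.O n (c * V.t) := V.O_mul' hdc hvt (by omega)
        simpa using h3
      · simpa using hdd
    · rw [mul_inv_rev, inv_inv, Units.val_mul, hi, tau_val, Matrix.mul_fin_two, zpow_one]
      have k1 : a' * (b * d⁻¹) + b' = 0 := by
        have := congrArg (fun z => z * d⁻¹) m01
        simp only [add_mul, zero_mul, mul_assoc, mul_inv_cancel₀ hd.1, mul_one] at this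
        exact this
      have k2 : c' * (b * d⁻¹) + d' = d⁻¹ := by
        have := congrArg (fun z => z * d⁻¹) m11
        simp only [add_mul, one_mul, mul_assoc, mul_inv_cancel₀ hd.1, mul_one] at this
        exact this
      intro i j
      fin_cases i <;> fin_cases j
      · have h3 : V.O (-n) (V.t⁻¹ * a' * V.t) :=
          V.O_mul' (V.O_mul hvti hda') hvt (by omega)
        simpa using h3
      · have h3 : V.t⁻¹ * a' * (b * d⁻¹) + V.t⁻¹ * b' * 1 = 0 := by
          rw [mul_one, mul_assoc, ← mul_add, k1, mul_zero]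
        have h4 : V.O (-n) (V.t⁻¹ * a' * (b * d⁻¹) + V.t⁻¹ * b' * 1) := by
          rw [h3]
          exact V.O_zero _
        simpa using h4
      · have h3 : V.O (-n) (c' * V.t) := V.O_mul' hdc' hvt (by omega)
        simpa using h3
      · have h3 : V.O (-n) (c' * (b * d⁻¹) + d') := by rw [k2]; exact hdi
        simpa using h3
  · right
    have hd1 : V.O (n + 1) d := by
      by_cases h0 : d = 0
      · exact Or.inl h0
      · right
        by_contra h3
        exact hd ⟨h0, by omega⟩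
    -- `b` has the value `n`
    have hb : b ≠ 0 ∧ V.v b ≤ n := by
      by_contra hb
      have hb1 : V.O (n + 1) b := by
        by_cases h0 : b = 0
        · exact Or.inl h0
        · right
          by_contra h3
          exact hb ⟨h0, by omega⟩
      have : V.O 1 (1 : D) := by
        rw [← m11]
        exact V.O_add (V.O_mul' hdc' hb1 (by omega)) (V.O_mul' hdd' hd1 (by omega))
      exact V.not_O_one (by omega) this
    have hvb : V.v b = n := le_antisymm hb.2 (hdb.resolve_left hb.1)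
    have hbi : V.O (-n) b⁻¹ := by
      have := V.O_inv hb.1
      rwa [hvb] at this
    have ha1 : V.O (-n + 1) a' := by
      have e : a' = -(b' * d) * b⁻¹ := by
        have h3 : a' * b = -(b' * d) := eq_neg_of_add_eq_zero_left m01
        rw [← h3, mul_assoc, mul_inv_cancel₀ hb.1, mul_one]
      rw [e]
      exact V.O_mul' (V.O_neg (V.O_mul hdb' hd1)) hbi (by omega)
    rw [eq_comm, cl_eq]
    refine ⟨n + 1, ?_, ?_⟩
    · rw [Units.val_mul, tau_inv_val, hm, Matrix.mul_fin_two]
      simp only [neg_neg, zpow_one, mul_zero, neg_zero, zero_mul, add_zero, one_mul, zero_add]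
      intro i j
      fin_cases i <;> fin_cases j
      · have h3 : V.O (n + 1) (V.t * (a * V.t)) := V.O_mul' hvt (V.O_mul hda hvt) (by omega)
        simpa using h3
      · have h3 : V.O (n + 1) (V.t * b) := V.O_mul' hvt hdb (by omega)
        simpa using h3
      · have h3 : V.O (n + 1) (c * V.t) := V.O_mul' hdc hvt (by omega)
        simpa using h3
      · simpa using hd1
    · rw [mul_inv_rev, inv_inv, Units.val_mul, hi, tau_val, Matrix.mul_fin_two]
      simp only [mul_zero, zero_add, mul_one, add_zero]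
      have hz : V.O (-1) (V.t ^ (-1 : ℤ)) := V.O_tz _
      intro i j
      fin_cases i <;> fin_cases j
      · have h3 : V.O (-(n + 1)) (V.t⁻¹ * a' * V.t ^ (-1 : ℤ)) :=
          V.O_mul' (V.O_mul hvti ha1) hz (by omega)
        simpa using h3
      · have h3 : V.O (-(n + 1)) (V.t⁻¹ * b') := V.O_mul' hvti hdb' (by omega)
        simpa using h3
      · have h3 : V.O (-(n + 1)) (c' * V.t ^ (-1 : ℤ)) := V.O_mul' hdc' hz (by omega)
        simpa using h3
      · simpa using V.O_mono (by omega) hdd'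

/-- the adjacency in terms of cosets -/
theorem adj_iff {x y : V.Vx} :
    V.tree.Adj x y ↔ ∃ g : (Matrix (Fin 2) (Fin 2) D)ˣ, x = V.cl g ∧ y = V.cl (g * V.dl) := by
  constructor
  · rintro (h | h)
    · -- `y` is the parent of `x`
      refine ⟨V.tau (V.rep x).1 (V.rep x).2 * sw, ?_, ?_⟩
      · rw [V.cl_mul_of_mem _ V.sw_mem]
        exact V.rep_spec x
      · rw [← h]
        unfold par
        -- `tau n b * sw * dl = tau (n - 1) b * (t * sw)`
        have e : V.tau (V.rep x).1 (V.rep x).2 * sw * V.dl =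
            V.tau ((V.rep x).1 - 1) (V.rep x).2 * (V.dl * sw * V.dl) := by
          rw [← mul_assoc, ← mul_assoc]
          congr 2
          show _ = V.tau _ _ * V.tau 1 0
          rw [tau_mul, mul_zero, zero_add, sub_add_cancel]
        rw [e]
        refine (V.cl_mul_of_mem _ ?_).symm
        have hdl : V.dl.1 = !![V.t, 0; 0, 1] := by
          show (V.tau 1 0).1 = _
          rw [tau_val, zpow_one]
        have hdli : V.dl⁻¹.1 = !![V.t⁻¹, 0; 0, 1] := by
          show (V.tau 1 0)⁻¹.1 = _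
          rw [tau_inv_val]
          simp
        have hvt : V.O 1 V.t := Or.inr (by rw [V.v_t])
        have hvti : V.O (-1) V.t⁻¹ := Or.inr (by rw [V.v_inv V.t_ne, V.v_t])
        have hsw : (sw : (Matrix (Fin 2) (Fin 2) D)ˣ).1 = !![0, 1; 1, 0] := rfl
        have hswi : (sw : (Matrix (Fin 2) (Fin 2) D)ˣ)⁻¹.1 = !![0, 1; 1, 0] := rfl
        refine ⟨1, ?_, ?_⟩
        · rw [Units.val_mul, Units.val_mul, hdl, hsw, Matrix.mul_fin_two, Matrix.mul_fin_two]
          simp only [mul_zero, mul_one, zero_mul, add_zero, zero_add, one_mul]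
          intro i j
          fin_cases i <;> fin_cases j
          · simpa using V.O_zero 1
          · simpa using hvt
          · simpa using hvt
          · simpa using V.O_zero 1
        · rw [mul_inv_rev, mul_inv_rev, Units.val_mul, Units.val_mul, hdli, hswi,
            Matrix.mul_fin_two, Matrix.mul_fin_two]
          simp only [mul_zero, mul_one, zero_mul, add_zero, zero_add, one_mul]
          intro i j
          fin_cases i <;> fin_cases j
          · simpa using V.O_zero (-1)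
          · simpa using hvti
          · simpa using hvti
          · simpa using V.O_zero (-1)
    · -- `x` is the parent of `y`
      refine ⟨V.tau ((V.rep y).1 - 1) (V.rep y).2, ?_, ?_⟩
      · rw [← h]
        rfl
      · show y = V.cl (V.tau _ _ * V.tau 1 0)
        rw [tau_mul, mul_zero, zero_add, sub_add_cancel]
        exact V.rep_spec y
  · rintro ⟨g, rfl, rfl⟩
    obtain ⟨n, b, h⟩ := V.iwasawa g
    -- write `g = tau n b * h`
    have hh : (V.tau n b)⁻¹ * g ∈ V.H := V.cl_eq.1 h.symm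
    have e : V.cl (g * V.dl) = V.tau n b • V.cl ((V.tau n b)⁻¹ * g * V.dl) := by
      rw [smul_cl]
      congr 1
      simp only [mul_assoc, mul_inv_cancel_left]
    rw [h, e]
    rcases V.neighbour hh with ⟨c, hc, h1⟩ | h1
    · right
      rw [h1, smul_cl, tau_mul, par_tau, cl_tau_eq]
      refine ⟨by omega, ?_⟩
      have : b - (V.t ^ n * c + b) = -(V.t ^ n * c) := by abel
      rw [this]
      refine V.O_neg ?_
      rw [V.O_tz_mul]
      exact V.O_mono (by omega) hc
    · left
      rw [h1, smul_cl, tau_mul, par_tau, mul_zero, zero_add]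
      congr 2

theorem adj_smul (g : (Matrix (Fin 2) (Fin 2) D)ˣ) (x y : V.Vx) (h : V.tree.Adj x y) :
    V.tree.Adj (g • x) (g • y) := by
  rw [adj_iff] at h ⊢
  obtain ⟨k, rfl, rfl⟩ := h
  exact ⟨g * k, rfl, by rw [smul_cl, mul_assoc]⟩

end DV

end Pool.Agent.L7h61.FJ
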