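import Mathlib

/-!
# Discrete valuations on division rings and the group of matrices integral up to a power of a
uniformizer
-/

set_option autoImplicit false

namespace Pool.Agent.L7h61.FJ

/-- A discrete valuation on a division ring (not necessarily commutative), with value group `ℤ`; the
value at zero is not used. -/
structure DV (D : Type) [DivisionRing D] where
  /-- the valuation, relevant on nonzero elements only -/
  v : D → ℤ
  map_mul : ∀ a b, a ≠ 0 → b ≠ 0 → v (a * b) = v a + v b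
  map_add : ∀ a b, a ≠ 0 → b ≠ 0 → a + b ≠ 0 → min (v a) (v b) ≤ v (a + b)
  /-- a uniformizer -/
  t : D
  t_ne : t ≠ 0
  v_t : v t = 1

namespace DV

variable {D : Type} [DivisionRing D] (V : DV D)

/-- the elements of value at least `n` -/
def O (n : ℤ) (a : D) : Prop := a = 0 ∨ n ≤ V.v a

theorem v_one : V.v 1 = 0 := by
  have := V.map_mul 1 1 one_ne_zero one_ne_zero
  rw [mul_one] at this
  linarith

theorem v_neg_one : V.v (-1) = 0 := by
  have := V.map_mul (-1) (-1) (neg_ne_zero.mpr one_ne_zero) (neg_ne_zero.mpr one_ne_zero)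
  rw [neg_mul_neg, mul_one, V.v_one] at this
  linarith

theorem v_neg {a : D} (ha : a ≠ 0) : V.v (-a) = V.v a := by
  have := V.map_mul (-1) a (neg_ne_zero.mpr one_ne_zero) ha
  rw [neg_one_mul, V.v_neg_one, zero_add] at this
  exact this

theorem v_inv {a : D} (ha : a ≠ 0) : V.v a⁻¹ = - V.v a := by
  have := V.map_mul a a⁻¹ ha (inv_ne_zero ha)
  rw [mul_inv_cancel₀ ha, V.v_one] at this
  linarith

theorem v_pow (n : ℕ) : V.v (V.t ^ n) = n := by
  induction n with
  | zero => simp [V.v_one]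
  | succ n ih =>
    rw [pow_succ, V.map_mul _ _ (pow_ne_zero _ V.t_ne) V.t_ne, ih, V.v_t]
    push_cast; ring

theorem tz_ne (n : ℤ) : V.t ^ n ≠ 0 := zpow_ne_zero n V.t_ne

theorem v_zpow (n : ℤ) : V.v (V.t ^ n) = n := by
  obtain ⟨m, rfl | rfl⟩ := n.eq_nat_or_neg
  · rw [zpow_natCast, V.v_pow]
  · rw [zpow_neg, V.v_inv (V.tz_ne _), zpow_natCast, V.v_pow]

theorem O_zero (n : ℤ) : V.O n 0 := Or.inl rfl

theorem O_of_v {a : D} (n : ℤ) (h : n ≤ V.v a) : V.O n a := Or.inr h

theorem O_mono {m n : ℤ} {a : D} (h : m ≤ n) (ha : V.O n a) : V.O m a :=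
  ha.imp id fun h' => h.trans h'

theorem O_add {n : ℤ} {a b : D} (ha : V.O n a) (hb : V.O n b) : V.O n (a + b) := by
  by_cases ha0 : a = 0
  · subst ha0; simpa using hb
  by_cases hb0 : b = 0
  · subst hb0; simpa using ha
  by_cases hab : a + b = 0
  · exact Or.inl hab
  right
  exact le_trans (le_min (ha.resolve_left ha0) (hb.resolve_left hb0)) (V.map_add a b ha0 hb0 hab)

theorem O_neg {n : ℤ} {a : D} (ha : V.O n a) : V.O n (-a) := by
  by_cases ha0 : a = 0
  · subst ha0; simpa using ha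
  right
  rw [V.v_neg ha0]
  exact ha.resolve_left ha0

theorem O_sub {n : ℤ} {a b : D} (ha : V.O n a) (hb : V.O n b) : V.O n (a - b) := by
  rw [sub_eq_add_neg]
  exact V.O_add ha (V.O_neg hb)

theorem O_mul {m n : ℤ} {a b : D} (ha : V.O m a) (hb : V.O n b) : V.O (m + n) (a * b) := by
  by_cases ha0 : a = 0
  · subst ha0; left; simp
  by_cases hb0 : b = 0
  · subst hb0; left; simp
  right
  rw [V.map_mul a b ha0 hb0]
  exact add_le_add (ha.resolve_left ha0) (hb.resolve_left hb0)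

theorem O_mul' {m n k : ℤ} {a b : D} (ha : V.O m a) (hb : V.O n b) (h : k ≤ m + n) :
    V.O k (a * b) := V.O_mono h (V.O_mul ha hb)

theorem O_one : V.O 0 (1 : D) := Or.inr (by rw [V.v_one])

theorem not_O_one {n : ℤ} (hn : 0 < n) : ¬ V.O n (1 : D) := by
  rintro (h | h)
  · exact one_ne_zero h
  · rw [V.v_one] at h
    omega

theorem O_v (a : D) : V.O (V.v a) a := Or.inr le_rfl

theorem O_inv {a : D} (ha : a ≠ 0) : V.O (- V.v a) a⁻¹ := Or.inr (by rw [V.v_inv ha])

theorem O_tz (n : ℤ) : V.O n (V.t ^ n) := Or.inr (by rw [V.v_zpow])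

theorem O_tz_iff (m n : ℤ) : V.O m (V.t ^ n) ↔ m ≤ n := by
  constructor
  · rintro (h | h)
    · exact absurd h (V.tz_ne n)
    · rwa [V.v_zpow] at h
  · intro h
    exact Or.inr (by rwa [V.v_zpow])

theorem O_tz_mul {n m : ℤ} {a : D} : V.O m (V.t ^ n * a) ↔ V.O (m - n) a := by
  constructor
  · intro h
    have := V.O_mul (V.O_tz (-n)) h
    rw [← mul_assoc, ← zpow_add₀ V.t_ne, neg_add_cancel, zpow_zero, one_mul] at this
    exact V.O_mono (by omega) this
  · intro h
    exact V.O_mono (by omega) (V.O_mul (V.O_tz n) h)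

/-! ### the stabilizer of the standard vertex -/

/-- all entries have value at least `n` -/
def MO (n : ℤ) (A : Matrix (Fin 2) (Fin 2) D) : Prop := ∀ i j, V.O n (A i j)

theorem MO_mono {m n : ℤ} {A : Matrix (Fin 2) (Fin 2) D} (h : m ≤ n) (hA : V.MO n A) :
    V.MO m A := fun i j => V.O_mono h (hA i j)

theorem MO_mul {m n : ℤ} {A B : Matrix (Fin 2) (Fin 2) D} (hA : V.MO m A) (hB : V.MO n B) :
    V.MO (m + n) (A * B) := by
  intro i j
  rw [Matrix.mul_apply, Fin.sum_univ_two]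
  exact V.O_add (V.O_mul (hA _ _) (hB _ _)) (V.O_mul (hA _ _) (hB _ _))

theorem MO_one : V.MO 0 (1 : Matrix (Fin 2) (Fin 2) D) := by
  intro i j
  rw [Matrix.one_apply]
  split_ifs
  · exact V.O_one
  · exact V.O_zero _

theorem MO_add {n : ℤ} {A B : Matrix (Fin 2) (Fin 2) D} (hA : V.MO n A) (hB : V.MO n B) :
    V.MO n (A + B) := fun i j => V.O_add (hA i j) (hB i j)

theorem MO_sub {n : ℤ} {A B : Matrix (Fin 2) (Fin 2) D} (hA : V.MO n A) (hB : V.MO n B) :
    V.MO n (A - B) := fun i j => V.O_sub (hA i j) (hB i j)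

theorem MO_neg {n : ℤ} {A : Matrix (Fin 2) (Fin 2) D} (hA : V.MO n A) :
    V.MO n (-A) := fun i j => V.O_neg (hA i j)

theorem MO_pow {A : Matrix (Fin 2) (Fin 2) D} (hA : V.MO 0 A) (k : ℕ) : V.MO 0 (A ^ k) := by
  induction k with
  | zero => rw [pow_zero]; exact V.MO_one
  | succ k ih =>
    rw [pow_succ]
    exact V.MO_mono (by omega) (V.MO_mul ih hA)

/-- every matrix has entries in some `O n` -/
theorem exists_MO (A : Matrix (Fin 2) (Fin 2) D) : ∃ n : ℤ, V.MO n A := by
  refine ⟨min (min (V.v (A 0 0)) (V.v (A 0 1))) (min (V.v (A 1 0)) (V.v (A 1 1))), ?_⟩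
  intro i j
  refine Or.inr ?_
  fin_cases i <;> fin_cases j <;> simp

/-- the matrices integral up to a power of the uniformizer, with inverses: the stabilizer of the
class of the standard lattice -/
def H : Subgroup (Matrix (Fin 2) (Fin 2) D)ˣ where
  carrier := {g | ∃ n : ℤ, V.MO n g.1 ∧ V.MO (-n) g⁻¹.1}
  mul_mem' := by
    rintro a b ⟨n, h1, h2⟩ ⟨m, h3, h4⟩
    refine ⟨n + m, ?_, ?_⟩
    · exact V.MO_mul h1 h3
    · rw [mul_inv_rev]
      exact V.MO_mono (by omega) (V.MO_mul h4 h2)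
  one_mem' := ⟨0, V.MO_one, by simpa using V.MO_one⟩
  inv_mem' := by
    rintro a ⟨n, h1, h2⟩
    exact ⟨-n, h2, by simpa using h1⟩

theorem mem_H {g : (Matrix (Fin 2) (Fin 2) D)ˣ} :
    g ∈ V.H ↔ ∃ n : ℤ, V.MO n g.1 ∧ V.MO (-n) g⁻¹.1 := Iff.rfl

/-- a matrix with its inverse -/
def mk2 (A B : Matrix (Fin 2) (Fin 2) D) (h1 : A * B = 1) (h2 : B * A = 1) :
    (Matrix (Fin 2) (Fin 2) D)ˣ := ⟨A, B, h1, h2⟩

/-- the matrix of the ball with centre `b` and radius `n` -/
def tau (n : ℤ) (b : D) : (Matrix (Fin 2) (Fin 2) D)ˣ where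
  val := !![V.t ^ n, b; 0, 1]
  inv := !![V.t ^ (-n), - (V.t ^ (-n) * b); 0, 1]
  val_inv := by
    rw [Matrix.mul_fin_two, Matrix.one_fin_two]
    simp only [mul_zero, add_zero, mul_one, zero_mul, zero_add, mul_neg, ← mul_assoc,
      ← zpow_add₀ V.t_ne, add_neg_cancel, zpow_zero, one_mul, neg_add_cancel, neg_zero]
  inv_val := by
    rw [Matrix.mul_fin_two, Matrix.one_fin_two]
    simp only [mul_zero, add_zero, mul_one, zero_mul, zero_add, ← zpow_add₀ V.t_ne,
      neg_add_cancel, zpow_zero, add_neg_cancel]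

/-- the matrix `diag (t, 1)` -/
def dl : (Matrix (Fin 2) (Fin 2) D)ˣ := V.tau 1 0

theorem tau_val (n : ℤ) (b : D) : (V.tau n b).1 = !![V.t ^ n, b; 0, 1] := rfl

theorem tau_inv_val (n : ℤ) (b : D) :
    (V.tau n b)⁻¹.1 = !![V.t ^ (-n), - (V.t ^ (-n) * b); 0, 1] := rfl

theorem tau_mul (n m : ℤ) (b c : D) : V.tau n b * V.tau m c = V.tau (n + m) (V.t ^ n * c + b) := by
  refine Units.ext ?_
  rw [Units.val_mul, tau_val, tau_val, tau_val, Matrix.mul_fin_two]
  simp only [mul_zero, add_zero, mul_one, zero_mul, zero_add, ← zpow_add₀ V.t_ne]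

theorem tau_inv (n : ℤ) (b : D) : (V.tau n b)⁻¹ = V.tau (-n) (- (V.t ^ (-n) * b)) := by
  refine Units.ext ?_
  rw [tau_inv_val, tau_val]

theorem tau_mem_H {n : ℤ} {b : D} : V.tau n b ∈ V.H ↔ n = 0 ∧ V.O 0 b := by
  constructor
  · rintro ⟨k, h1, h2⟩
    have hk0 : k ≤ 0 := by
      by_contra hk
      push Not at hk
      exact V.not_O_one hk (by simpa [tau_val] using h1 1 1)
    have hk1 : 0 ≤ k := by
      by_contra hk
      push Not at hk
      exact V.not_O_one (n := -k) (by omega) (by simpa [tau_inv_val] using h2 1 1)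
    have hk : k = 0 := le_antisymm hk0 hk1
    subst hk
    have h3 : V.O 0 (V.t ^ n) := by simpa [tau_val] using h1 0 0
    have h4 : V.O 0 (V.t ^ (-n)) := by
      have := h2 0 0
      rw [tau_inv_val] at this
      simpa using this
    rw [V.O_tz_iff] at h3 h4
    refine ⟨by omega, by simpa [tau_val] using h1 0 1⟩
  · rintro ⟨rfl, hb⟩
    refine ⟨0, ?_, ?_⟩
    · intro i j
      rw [tau_val]
      fin_cases i <;> fin_cases j
      · simpa using V.O_one
      · simpa using hb
      · simpa using V.O_zero 0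
      · simpa using V.O_one
    · intro i j
      rw [tau_inv_val]
      fin_cases i <;> fin_cases j
      · simpa using V.O_one
      · simpa using V.O_neg hb
      · simpa using V.O_zero 0
      · simpa using V.O_one

end DV

end Pool.Agent.L7h61.FJ
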